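import Pool.Agent.D0H54.PV.Div

set_option autoImplicit false

/-! Rational numbers with multiplicative numerators avoid very small sets (helper54). -/

namespace Pool.Agent.D0H54.PV

open Finset Classical Filter
open Pool.Agent.N733.TG (LM)

/-- the function `log X logloglog X / loglog X` -/
noncomputable def rate (X : ℝ) : ℝ := Real.log X * Real.log (Real.log (Real.log X)) / Real.log (Real.log X)

lemma eval_le {h : Polynomial ℤ} {a H w : ℕ} (hd : h.natDegree ≤ a) (hc : ∀ i, |h.coeff i| ≤ (H : ℤ)) (hw : 1 ≤ w) :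
    |h.eval (w : ℤ)| ≤ (((a + 1) * H * w ^ a : ℕ) : ℤ) := by
  rw [Polynomial.eval_eq_sum_range]
  refine (abs_sum_le_sum_abs _ _).trans ?_
  have hw1 : (1 : ℤ) ≤ w := by exact_mod_cast hw
  calc ∑ i ∈ range (h.natDegree + 1), |h.coeff i * (w : ℤ) ^ i|
      ≤ ∑ _i ∈ range (h.natDegree + 1), (H : ℤ) * (w : ℤ) ^ a := by
        apply sum_le_sum
        intro i hi
        rw [abs_mul, abs_of_nonneg (show (0 : ℤ) ≤ (w : ℤ) ^ i by positivity)]
        have h1 : (w : ℤ) ^ i ≤ (w : ℤ) ^ a := pow_le_pow_right₀ hw1 (by rw [mem_range] at hi; omega)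
        exact mul_le_mul (hc i) h1 (by positivity) (by positivity)
    _ = ((h.natDegree + 1 : ℕ) : ℤ) * ((H : ℤ) * (w : ℤ) ^ a) := by rw [sum_const, card_range, nsmul_eq_mul]
    _ ≤ ((a + 1 : ℕ) : ℤ) * ((H : ℤ) * (w : ℤ) ^ a) := by
        apply mul_le_mul_of_nonneg_right _ (by positivity)
        exact_mod_cast Nat.succ_le_succ hd
    _ = _ := by
        push_cast
        ring

lemma fib {h : Polynomial ℤ} {a : ℕ} (hd1 : 1 ≤ h.natDegree) (hd : h.natDegree ≤ a) (W : Finset ℕ) (z : ℤ) :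
    (W.filter (fun w : ℕ => h.eval (w : ℤ) = z)).card ≤ a := by
  have h0 : h - Polynomial.C z ≠ 0 := by
    intro h0
    have h1 : h = Polynomial.C z := sub_eq_zero.1 h0
    rw [h1, Polynomial.natDegree_C] at hd1
    omega
  have h1 : ((W.filter (fun w : ℕ => h.eval (w : ℤ) = z)).image (fun w : ℕ => (w : ℤ))) ⊆
      (h - Polynomial.C z).roots.toFinset := by
    intro x hx
    obtain ⟨w, hw, rfl⟩ := mem_image.1 hx
    rw [mem_filter] at hw
    rw [Multiset.mem_toFinset, Polynomial.mem_roots h0, Polynomial.IsRoot.def, Polynomial.eval_sub,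
      Polynomial.eval_C, hw.2, sub_self]
  have h2 := card_le_card h1
  rw [card_image_of_injective _ Nat.cast_injective] at h2
  refine h2.trans ((Multiset.toFinset_card_le _).trans ?_)
  exact (Polynomial.card_roots_sub_C' (Polynomial.natDegree_pos_iff_degree_pos.1 (by omega))).trans hd

lemma num_le {z : ℤ} {v B : ℕ} (hv : 1 ≤ v) (hz : |z| ≤ (B : ℤ)) : |((z : ℚ) / v).num| ≤ (B : ℤ) := by
  obtain ⟨t, ht⟩ : ∃ t : ℚ, t = (z : ℚ) / v := ⟨_, rfl⟩
  rw [← ht]
  have hv0 : (0 : ℚ) < v := by exact_mod_cast hv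
  have h3 : |t| = |(z : ℚ)| / v := by
    rw [ht, abs_div, abs_of_pos hv0]
  have h4 : |(t.num : ℚ)| = |t| * t.den := by
    have h5 := Rat.num_div_den t
    have h6 : (t.den : ℚ) ≠ 0 := by exact_mod_cast t.den_nz
    have h7 : (t.num : ℚ) = t * t.den := by
      rw [eq_comm, ← eq_div_iff h6]
      exact h5.symm
    rw [h7, abs_mul, abs_of_nonneg (show (0 : ℚ) ≤ (t.den : ℚ) by positivity)]
  have hdvd : t.den ∣ v := by
    have h1 : t = Rat.divInt z (v : ℤ) := by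
      rw [ht, Rat.divInt_eq_div]
      push_cast
      rfl
    rw [h1]
    have h2 := Rat.den_dvd z (v : ℤ)
    exact_mod_cast h2
  have h8 : (t.den : ℚ) ≤ v := by exact_mod_cast Nat.le_of_dvd hv hdvd
  have h9 : |(t.num : ℚ)| ≤ |(z : ℚ)| := by
    rw [h4, h3]
    calc |(z : ℚ)| / v * t.den ≤ |(z : ℚ)| / v * v := by gcongr
      _ = |(z : ℚ)| := by field_simp
  have h10 : |t.num| ≤ |z| := by exact_mod_cast h9
  exact h10.trans hz

lemma den_dvd' {z : ℤ} {v : ℕ} : ((z : ℚ) / v).den ∣ v := by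
  have h1 : (z : ℚ) / v = Rat.divInt z (v : ℤ) := by
    rw [Rat.divInt_eq_div]
    push_cast
    rfl
  rw [h1]
  have h2 := Rat.den_dvd z (v : ℤ)
  exact_mod_cast h2

lemma classes {W : Finset ℕ} {v B d : ℕ} {τ : ℕ → ℤ} {Bad : ℚ → Prop} {K : ℝ} (hv : 1 ≤ v) (hvB : v ≤ B)
    (hτ : ∀ z : ℤ, (W.filter (fun w => τ w = z)).card ≤ d)
    (hW : ∀ w ∈ W, |τ w| ≤ (B : ℤ)) (hWb : ∀ w ∈ W, Bad ((τ w : ℚ) / v))
    (hBad : ∀ v' : ℕ, v' ≤ B → ∀ T : Finset ℚ, (∀ t ∈ T, t.den = v' ∧ |t.num| ≤ B ∧ Bad t) →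
      (T.card : ℝ) ≤ K) : (W.card : ℝ) ≤ v.divisors.card * (d * K) := by
  have hv0 : (v : ℚ) ≠ 0 := by
    have : v ≠ 0 := by omega
    exact_mod_cast this
  -- one class of values
  have hcls : ∀ v' ∈ v.divisors, ((W.filter (fun w => ((τ w : ℚ) / v).den = v')).card : ℝ) ≤ d * K := by
    intro v' hv'
    have hv'B : v' ≤ B := (Nat.le_of_dvd hv (Nat.dvd_of_mem_divisors hv')).trans hvB
    have h1 := hBad v' hv'B ((W.filter (fun w => ((τ w : ℚ) / v).den = v')).image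
        (fun w : ℕ => (τ w : ℚ) / v)) (by
      intro t ht
      rw [mem_image] at ht
      obtain ⟨w, hw, rfl⟩ := ht
      rw [mem_filter] at hw
      exact ⟨hw.2, num_le hv (hW w hw.1), hWb w hw.1⟩)
    have h2 : (W.filter (fun w => ((τ w : ℚ) / v).den = v')).card ≤
        d * ((W.filter (fun w => ((τ w : ℚ) / v).den = v')).image (fun w : ℕ => (τ w : ℚ) / v)).card := by
      apply card_le_mul_card_image
      intro t ht
      obtain ⟨w₀, hw₀, rfl⟩ := mem_image.1 ht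
      refine le_trans (card_le_card ?_) (hτ (τ w₀))
      intro w hw
      rw [mem_filter, mem_filter] at hw
      rw [mem_filter]
      refine ⟨hw.1.1, ?_⟩
      have h3 := hw.2
      rw [div_left_inj' hv0] at h3
      exact_mod_cast h3
    have h3 : ((W.filter (fun w => ((τ w : ℚ) / v).den = v')).card : ℝ) ≤
        d * (((W.filter (fun w => ((τ w : ℚ) / v).den = v')).image (fun w : ℕ => (τ w : ℚ) / v)).card : ℝ) := by
      exact_mod_cast h2
    refine h3.trans ?_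
    gcongr
  have hsub : W ⊆ v.divisors.biUnion (fun v' => W.filter (fun w => ((τ w : ℚ) / v).den = v')) := by
    intro w hw
    rw [mem_biUnion]
    refine ⟨((τ w : ℚ) / v).den, ?_, ?_⟩
    · rw [Nat.mem_divisors]
      exact ⟨den_dvd', by omega⟩
    · rw [mem_filter]
      exact ⟨hw, rfl⟩
  calc (W.card : ℝ) ≤ ((v.divisors.biUnion (fun v' => W.filter (fun w => ((τ w : ℚ) / v).den = v'))).card : ℝ) := by
        exact_mod_cast card_le_card hsub
    _ ≤ ∑ v' ∈ v.divisors, (((W.filter (fun w => ((τ w : ℚ) / v).den = v')).card : ℕ) : ℝ) := by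
        exact_mod_cast card_biUnion_le
    _ ≤ ∑ v' ∈ v.divisors, (d * K) := sum_le_sum hcls
    _ = v.divisors.card * (d * K) := by rw [sum_const, nsmul_eq_mul]

theorem few_rat {f : ℕ → ℕ} (hf : LM f) {c : ℝ} (hc : c < 1) (C s a : ℕ) :
    ∃ N₀ : ℕ, ∀ N : ℕ, N₀ ≤ N → ∀ v : ℕ, 1 ≤ v → v ≤ N ^ a → ∀ h : Polynomial ℤ,
      1 ≤ h.natDegree → h.natDegree ≤ a → (∀ i, |h.coeff i| ≤ (N : ℤ) ^ a) → ∀ Bad : ℚ → Prop,
      (∀ B v' : ℕ, 2 ≤ B → v' ≤ B → ∀ T : Finset ℚ,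
        (∀ t ∈ T, t.den = v' ∧ |t.num| ≤ B ∧ Bad t) → (T.card : ℝ) ≤ C * Real.log B ^ s) →
      (((Icc 1 N).filter (fun m => Bad (((h.eval (f m : ℤ) : ℤ) : ℚ) / v))).card : ℝ) ≤
        N * Real.exp (-(c * rate N)) := by
  obtain ⟨c₁, hc₁⟩ : ∃ c₁ : ℝ, c₁ = (c + 1) / 2 := ⟨_, rfl⟩
  have hc₁1 : c₁ < 1 := by linarith
  obtain ⟨δ, hδ⟩ : ∃ δ : ℝ, δ = (c₁ - c) / 2 := ⟨_, rfl⟩
  have hδ0 : 0 < δ := by linarith
  obtain ⟨N₁, hN₁⟩ := pop hf hc₁1
  obtain ⟨A, D, hAD⟩ := hf.growth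
  obtain ⟨G, hG⟩ : ∃ G : ℕ, G = (a + 1) * (A + 2) ^ a := ⟨_, rfl⟩
  have hG1 : 1 ≤ G := by
    rw [hG]
    exact Nat.mul_pos (by omega) (Nat.pow_pos (by omega))
  obtain ⟨D₂, hD₂⟩ : ∃ D₂ : ℕ, D₂ = G + (a + D * a) := ⟨_, rfl⟩
  obtain ⟨R, hR⟩ : ∃ R : ℝ, R = Real.log ((a + 1) * (C + 1) * (D₂ : ℝ) ^ s) := ⟨_, rfl⟩
  have hD₂0 : (0 : ℝ) < D₂ := by
    have : 0 < D₂ := by omega
    exact_mod_cast this
  have hlog : Tendsto (fun N : ℕ => Real.log (Real.log (N : ℝ))) atTop atTop :=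
    Real.tendsto_log_atTop.comp (Real.tendsto_log_atTop.comp tendsto_natCast_atTop_atTop)
  obtain ⟨N₂, hN₂⟩ := eventually_atTop.1 (hlog.eventually (eventually_y2 hδ0 a s R))
  refine ⟨max (max N₁ N₂) 3, fun N hN v hv hva h hd1 hd hcoef Bad hBad => ?_⟩
  have hN3 : 3 ≤ N := le_trans (le_max_right _ _) hN
  have hNN₁ : N₁ ≤ N := le_trans (le_trans (le_max_left _ _) (le_max_left _ _)) hN
  have hNN₂ : N₂ ≤ N := le_trans (le_trans (le_max_right _ _) (le_max_left _ _)) hN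
  obtain ⟨y1, y2, y3, y4⟩ := hN₂ N hNN₂
  have hpop := hN₁ N hNN₁
  have hN0 : (0 : ℝ) < N := by
    have : 0 < N := by omega
    exact_mod_cast this
  obtain ⟨L, hL⟩ : ∃ L : ℝ, L = Real.log N := ⟨_, rfl⟩
  unfold rate
  rw [← hL] at y1 y2 y3 y4 hpop ⊢
  obtain ⟨y, hy⟩ : ∃ y : ℝ, y = Real.log L := ⟨_, rfl⟩
  rw [← hy] at y1 y2 y3 y4 hpop ⊢
  have hy0 : 0 < y := by linarith
  have hL0 : 0 < L := by
    by_contra hneg
    have hL1 : L = 0 := by
      have : 0 ≤ L := by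
        rw [hL]
        exact Real.log_natCast_nonneg N
      linarith
    rw [hL1, Real.log_zero] at hy
    linarith
  have hLy : L = Real.exp y := by rw [hy, Real.exp_log hL0]
  have hL1 : 1 ≤ L := by
    rw [hLy]
    exact Real.one_le_exp hy0.le
  obtain ⟨E, hE⟩ : ∃ E : ℝ, E = L * Real.log y / y := ⟨_, rfl⟩
  rw [← hE] at hpop ⊢
  rw [← hLy, ← hE] at y3 y4
  have hdiv := div_card hL hLy y1 hv hva
  rw [← hLy] at hdiv
  -- the exceptional set and its values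
  obtain ⟨S, hS⟩ : ∃ S : Finset ℕ, S = (Icc 1 N).filter
    (fun m => Bad (((h.eval (f m : ℤ) : ℤ) : ℚ) / v)) := ⟨_, rfl⟩
  rw [← hS]
  obtain ⟨B, hB⟩ : ∃ B : ℕ, B = G * N ^ (a + D * a) := ⟨_, rfl⟩
  have hNpos : 0 < N := by omega
  have ha1 : 1 ≤ a := hd1.trans hd
  have hB2 : 2 ≤ B := by
    rw [hB]
    calc 2 ≤ N := by omega
      _ = N ^ 1 := (pow_one N).symm
      _ ≤ N ^ (a + D * a) := Nat.pow_le_pow_right hNpos (by omega)
      _ ≤ G * N ^ (a + D * a) := Nat.le_mul_of_pos_left _ hG1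
  have hvB : v ≤ B := by
    rw [hB]
    calc v ≤ N ^ a := hva
      _ ≤ N ^ (a + D * a) := Nat.pow_le_pow_right hNpos (by omega)
      _ ≤ G * N ^ (a + D * a) := Nat.le_mul_of_pos_left _ hG1
  have hcoef' : ∀ i, |h.coeff i| ≤ ((N ^ a : ℕ) : ℤ) := by
    intro i
    have := hcoef i
    exact_mod_cast this
  have hfB : ∀ m ∈ S, |h.eval (f m : ℤ)| ≤ (B : ℤ) := by
    intro m hm
    rw [hS, mem_filter, mem_Icc] at hm
    have h1 : f m ≤ (A + 2) * N ^ D := by
      calc f m ≤ A * m ^ D := hAD m hm.1.1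
        _ ≤ (A + 2) * N ^ D := Nat.mul_le_mul (by omega) (Nat.pow_le_pow_left hm.1.2 _)
    have h2 := eval_le hd hcoef' (hf.pos m hm.1.1)
    refine h2.trans ?_
    have h3 : (a + 1) * N ^ a * f m ^ a ≤ B := by
      calc (a + 1) * N ^ a * f m ^ a ≤ (a + 1) * N ^ a * ((A + 2) * N ^ D) ^ a :=
            Nat.mul_le_mul_left _ (Nat.pow_le_pow_left h1 _)
        _ = B := by
            rw [hB, hG, mul_pow, ← pow_mul, pow_add]
            ring
    exact_mod_cast h3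
  have hlogB : Real.log B ≤ D₂ * L := by
    rw [hB]
    push_cast
    have hG0 : (0 : ℝ) < G := by exact_mod_cast hG1
    rw [Real.log_mul (by positivity) (by positivity), Real.log_pow, ← hL, hD₂]
    push_cast
    have e2 : Real.log (G : ℝ) ≤ (G : ℝ) :=
      (Real.log_le_sub_one_of_pos hG0).trans (by linarith)
    nlinarith
  have hlogB0 : 0 ≤ Real.log B := Real.log_natCast_nonneg B
  have hK : (C : ℝ) * Real.log B ^ s ≤ C * (D₂ * L) ^ s := by gcongr
  -- the number of the values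
  have hW : ((S.image f).card : ℝ) ≤ (v.divisors.card : ℝ) * (a * (C * (D₂ * L) ^ s)) := by
    apply classes hv hvB (Bad := Bad) (τ := fun w : ℕ => h.eval (w : ℤ)) (fib hd1 hd _)
    · intro w hw
      obtain ⟨m, hm, rfl⟩ := mem_image.1 hw
      exact hfB m hm
    · intro w hw
      obtain ⟨m, hm, rfl⟩ := mem_image.1 hw
      rw [hS, mem_filter] at hm
      exact hm.2
    · intro v' hv' T hT
      exact (hBad B v' hB2 hv' T hT).trans hK
  -- the number of the exceptional m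
  have hSc : (S.card : ℝ) ≤ ((S.image f).card : ℝ) * (N * Real.exp (-(c₁ * E))) := by
    rw [card_eq_sum_card_image f S]
    push_cast
    rw [← nsmul_eq_mul, ← sum_const]
    apply sum_le_sum
    intro w _
    refine le_trans ?_ (hpop w)
    have : S.filter (fun m => f m = w) ⊆ (Icc 1 N).filter (fun m => f m = w) := by
      intro m hm
      rw [mem_filter, hS, mem_filter] at hm
      rw [mem_filter]
      exact ⟨hm.1.1, hm.2⟩
    exact_mod_cast card_le_card this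
  have h1 : (v.divisors.card : ℝ) ≤ Real.exp (δ * E) := hdiv.trans (Real.exp_le_exp.2 y3)
  have h2 : a * ((C : ℝ) * (D₂ * L) ^ s) ≤ Real.exp (δ * E) := by
    refine le_trans ?_ (Real.exp_le_exp.2 y4)
    rw [Real.exp_add, hR, Real.exp_log (by positivity), Real.exp_nat_mul, ← hLy, mul_pow]
    have e0 : (0 : ℝ) ≤ (D₂ : ℝ) ^ s * L ^ s := by positivity
    have e1 : (a : ℝ) * C ≤ (a + 1) * (C + 1) := by
      have : (0 : ℝ) ≤ a := Nat.cast_nonneg a
      have : (0 : ℝ) ≤ C := Nat.cast_nonneg C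
      nlinarith
    nlinarith
  calc (S.card : ℝ) ≤ ((S.image f).card : ℝ) * (N * Real.exp (-(c₁ * E))) := hSc
    _ ≤ ((v.divisors.card : ℝ) * (a * (C * (D₂ * L) ^ s))) * (N * Real.exp (-(c₁ * E))) := by
        gcongr
    _ ≤ (Real.exp (δ * E) * Real.exp (δ * E)) * (N * Real.exp (-(c₁ * E))) := by
        gcongr
    _ = N * Real.exp (-(c * E)) := by
        rw [mul_left_comm, ← Real.exp_add, ← Real.exp_add, hδ]
        congr 2
        ring

end Pool.Agent.D0H54.PV
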