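import Pool.Agent.D0H54.PV.Diag
import Pool.Agent.D0H54.PV.Rat

set_option autoImplicit false

/-! The two rates (helper54). -/

namespace Pool.Agent.D0H54.PV

open Finset Classical Filter

lemma rate_tendsto : Tendsto (fun N : ℕ => rate (N : ℝ)) atTop atTop := by
  have hlog : Tendsto (fun N : ℕ => Real.log (Real.log (N : ℝ))) atTop atTop :=
    Real.tendsto_log_atTop.comp (Real.tendsto_log_atTop.comp tendsto_natCast_atTop_atTop)
  have h2 : Tendsto (fun N : ℕ => Real.log (Real.log (N : ℝ)) / 2) atTop atTop :=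
    hlog.atTop_div_const (by norm_num)
  refine tendsto_atTop_mono' atTop ?_ h2
  have hll : ∀ᶠ y : ℝ in atTop, 3 ≤ y ∧ 1 ≤ Real.log y :=
    (eventually_ge_atTop 3).and (Real.tendsto_log_atTop.eventually_ge_atTop 1)
  filter_upwards [hlog.eventually hll] with N hN
  obtain ⟨y1, y2⟩ := hN
  unfold rate
  obtain ⟨L, hL⟩ : ∃ L : ℝ, L = Real.log N := ⟨_, rfl⟩
  rw [← hL] at y1 y2 ⊢
  obtain ⟨y, hy⟩ : ∃ y : ℝ, y = Real.log L := ⟨_, rfl⟩
  rw [← hy] at y1 y2 ⊢
  have hy0 : 0 < y := by linarith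
  have hL0 : 0 < L := by
    by_contra hneg
    have hL1 : L = 0 := by
      have : 0 ≤ L := by
        rw [hL]
        exact Real.log_natCast_nonneg N
      linarith
    rw [hL1, Real.log_zero] at hy
    linarith
  have hLy : L = Real.exp y := by rw [hy, Real.exp_log hL0]
  have h3 := Real.quadratic_le_exp_of_nonneg hy0.le
  rw [← hLy] at h3
  rw [le_div_iff₀ hy0]
  nlinarith

/-- the first rate -/
noncomputable def βr (j X : ℕ) : ℝ := X * Real.exp (-((1 - 1 / ((j : ℝ) + 2)) * rate X))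

lemma βr_nonneg (j X : ℕ) : 0 ≤ βr j X := by
  unfold βr
  positivity

lemma βr_anti (j : ℕ) : ∀ᶠ X : ℕ in atTop, ∀ i ∈ range (j + 1), βr j X ≤ βr i X := by
  filter_upwards [rate_tendsto.eventually_ge_atTop 0] with X hX i hi
  rw [mem_range] at hi
  unfold βr
  apply mul_le_mul_of_nonneg_left _ (Nat.cast_nonneg X)
  apply Real.exp_le_exp.2
  have hij : (i : ℝ) ≤ j := by exact_mod_cast Nat.lt_succ_iff.1 hi
  have h1 : 1 / ((j : ℝ) + 2) ≤ 1 / ((i : ℝ) + 2) := by
    apply one_div_le_one_div_of_le (by positivity)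
    linarith
  nlinarith

lemma βr_step (j : ℕ) : ∀ᶠ X : ℕ in atTop, ((j : ℝ) + 1) * βr (j + 1) X ≤ βr j X := by
  obtain ⟨δ, hδ⟩ : ∃ δ : ℝ, δ = 1 / ((j : ℝ) + 2) - 1 / (((j + 1 : ℕ) : ℝ) + 2) := ⟨_, rfl⟩
  have hδ0 : 0 < δ := by
    rw [hδ, sub_pos]
    apply one_div_lt_one_div_of_lt (by positivity)
    push_cast
    linarith
  have h1 : Tendsto (fun X : ℕ => δ * rate (X : ℝ)) atTop atTop := rate_tendsto.const_mul_atTop hδ0
  filter_upwards [h1.eventually_ge_atTop ((j : ℝ) + 1)] with X hX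
  unfold βr
  have h2 : (j : ℝ) + 1 ≤ Real.exp (δ * rate X) := by
    have := Real.add_one_le_exp (δ * rate X)
    linarith
  calc ((j : ℝ) + 1) * (X * Real.exp (-((1 - 1 / (((j + 1 : ℕ) : ℝ) + 2)) * rate X)))
      ≤ Real.exp (δ * rate X) * (X * Real.exp (-((1 - 1 / (((j + 1 : ℕ) : ℝ) + 2)) * rate X))) := by
        apply mul_le_mul_of_nonneg_right h2 (by positivity)
    _ = X * Real.exp (-((1 - 1 / ((j : ℝ) + 2)) * rate X)) := by
        rw [mul_left_comm, ← Real.exp_add, hδ]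
        congr 2
        ring

lemma βr_le {c : ℝ} (hc : c < 1) : ∃ j : ℕ, ∀ᶠ X : ℕ in atTop, βr j X ≤ X * Real.exp (-(c * rate X)) := by
  obtain ⟨j, hj⟩ := exists_nat_gt (1 / (1 - c))
  refine ⟨j, ?_⟩
  filter_upwards [rate_tendsto.eventually_ge_atTop 0] with X hX
  unfold βr
  apply mul_le_mul_of_nonneg_left _ (Nat.cast_nonneg X)
  apply Real.exp_le_exp.2
  have h0 : 0 < 1 - c := by linarith
  have h1 : 1 / ((j : ℝ) + 2) ≤ 1 - c := by
    rw [div_le_iff₀ (by positivity)]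
    rw [div_lt_iff₀ h0] at hj
    nlinarith
  nlinarith

/-- the second rate -/
noncomputable def βl (j X : ℕ) : ℝ := X / Real.log X ^ j

lemma βl_nonneg (j X : ℕ) : 0 ≤ βl j X := by
  unfold βl
  have := Real.log_natCast_nonneg X
  positivity

lemma log_tendsto : Tendsto (fun N : ℕ => Real.log (N : ℝ)) atTop atTop :=
  Real.tendsto_log_atTop.comp tendsto_natCast_atTop_atTop

lemma βl_anti (j : ℕ) : ∀ᶠ X : ℕ in atTop, ∀ i ∈ range (j + 1), βl j X ≤ βl i X := by
  filter_upwards [log_tendsto.eventually_ge_atTop 1] with X hX i hi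
  rw [mem_range] at hi
  unfold βl
  apply div_le_div_of_nonneg_left (Nat.cast_nonneg X) (by positivity)
  exact pow_le_pow_right₀ hX (by omega)

lemma βl_step (j : ℕ) : ∀ᶠ X : ℕ in atTop, ((j : ℝ) + 1) * βl (j + 1) X ≤ βl j X := by
  filter_upwards [log_tendsto.eventually_ge_atTop ((j : ℝ) + 1)] with X hX
  unfold βl
  have h0 : 0 < Real.log X := by
    have : (0 : ℝ) ≤ j := Nat.cast_nonneg j
    linarith
  rw [pow_succ, ← mul_div_assoc, div_le_div_iff₀ (by positivity) (by positivity)]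
  have h1 : (0 : ℝ) ≤ X * Real.log X ^ j := by positivity
  nlinarith

end Pool.Agent.D0H54.PV
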