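import Pool.Agent.D0H54.PV.Euler
import Pool.Agent.N733.TG.G

set_option autoImplicit false

/-! The number of the solutions of `f m = w`, `f` multiplicative (helper54). -/

namespace Pool.Agent.D0H54.PV

open Finset Classical
open Pool.Agent.N733.TG (LM)

/-- the sum over the divisors -/
lemma div_sum {κ : ℝ} (hκ : 3 / 4 ≤ κ) {w : ℕ} (hw : 1 ≤ w) :
    ∑ d ∈ w.divisors, (d : ℝ) ^ (-κ) ≤
      Real.exp (∑ p ∈ w.primeFactors, (p : ℝ) ^ (-κ) + 5 / 2 * Z) := by
  have hκ0 : -κ ≠ 0 := by intro h; linarith
  let G : ℕ → ℝ := fun m => if m ∣ w then (m : ℝ) ^ (-κ) else 0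
  have hG : ∀ m, G m = if m ∣ w then (m : ℝ) ^ (-κ) else 0 := fun m => rfl
  have h := euler hκ G (fun m => by rw [hG]; split_ifs <;> positivity) (by rw [hG]; simp)
    (fun m n hmn => by
      rw [hG, hG, hG]
      have e : m * n ∣ w ↔ m ∣ w ∧ n ∣ w :=
        ⟨fun h => ⟨(Dvd.intro n rfl).trans h, (Dvd.intro_left m rfl).trans h⟩,
          fun h => hmn.mul_dvd_of_dvd_of_dvd h.1 h.2⟩
      by_cases h1 : m ∣ w
      · by_cases h2 : n ∣ w
        · rw [if_pos h1, if_pos h2, if_pos (e.2 ⟨h1, h2⟩), Nat.cast_mul,
            Real.mul_rpow (by positivity) (by positivity)]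
        · rw [if_neg h2, if_neg (fun h => h2 (e.1 h).2), mul_zero]
      · rw [if_neg h1, if_neg (fun h => h1 (e.1 h).1), zero_mul])
    (fun p hp a => by
      rw [hG]
      split_ifs
      · rw [Nat.cast_pow, ← Real.rpow_natCast, ← Real.rpow_mul (by positivity),
          ← Real.rpow_natCast, ← Real.rpow_mul (by positivity), mul_comm]
      · positivity) w
  refine le_trans ?_ (h.trans ?_)
  · have h2 : ∑ m ∈ Icc 1 w, G m = ∑ d ∈ (Icc 1 w).filter (· ∣ w), (d : ℝ) ^ (-κ) := by
      rw [sum_filter]
    rw [h2]
    apply le_of_eq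
    apply sum_congr _ (fun _ _ => rfl)
    ext d
    rw [Nat.mem_divisors, mem_filter, mem_Icc]
    constructor
    · rintro ⟨h1, h2⟩
      exact ⟨⟨Nat.pos_of_dvd_of_pos h1 hw, Nat.le_of_dvd hw h1⟩, h1⟩
    · rintro ⟨-, h1⟩
      exact ⟨h1, by omega⟩
  · rw [Real.exp_le_exp]
    have h2 : ∑ p ∈ PP w, G p ≤ ∑ p ∈ w.primeFactors, (p : ℝ) ^ (-κ) := by
      have e : ∑ p ∈ PP w, G p = ∑ p ∈ (PP w).filter (· ∣ w), (p : ℝ) ^ (-κ) :=
        (sum_filter (s := PP w) (fun p => p ∣ w) (fun p : ℕ => (p : ℝ) ^ (-κ))).symm
      rw [e]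
      apply sum_le_sum_of_subset_of_nonneg
      · intro p hp
        rw [mem_filter, mem_filter] at hp
        rw [Nat.mem_primeFactors]
        exact ⟨hp.1.2, hp.2, by omega⟩
      · intros
        positivity
    linarith

/-- Rankin's bound for the number of the solutions of `f m = w` -/
lemma count_le {f : ℕ → ℕ} (hf : LM f) : ∃ C : ℝ, 0 ≤ C ∧ ∀ κ : ℝ, 3 / 4 ≤ κ → κ ≤ 1 →
    ∀ N w : ℕ, 1 ≤ w → (((Icc 1 N).filter (fun m => f m = w)).card : ℝ) ≤
      (N : ℝ) ^ κ * Real.exp (C + C * ∑ d ∈ w.divisors, (d : ℝ) ^ (-κ)) := by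
  obtain ⟨P, M, hPM⟩ := hf.prime
  refine ⟨P + M + 5 / 2 * Z, by have := Z_nonneg; positivity, fun κ hκ hκ1 N w hw => ?_⟩
  have hZ := Z_nonneg
  let G : ℕ → ℝ := fun m =>
    if ∀ p ∈ m.primeFactors, m.factorization p = 1 → f p ∣ w then (m : ℝ) ^ (-κ) else 0
  have hG : ∀ m, G m =
    if ∀ p ∈ m.primeFactors, m.factorization p = 1 → f p ∣ w then (m : ℝ) ^ (-κ) else 0 :=
    fun m => rfl
  have hκ0 : -κ ≠ 0 := by intro h; linarith
  have hmul : ∀ m n : ℕ, Nat.Coprime m n → G (m * n) = G m * G n := by
    intro m n hmn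
    by_cases hm : m = 0
    · subst hm
      have hn : n = 1 := by simpa using hmn
      subst hn
      simp [hG]
    by_cases hn : n = 0
    · subst hn
      have hm : m = 1 := by simpa using hmn
      subst hm
      simp [hG]
    have e : (∀ p ∈ (m * n).primeFactors, (m * n).factorization p = 1 → f p ∣ w) ↔
        (∀ p ∈ m.primeFactors, m.factorization p = 1 → f p ∣ w) ∧
        (∀ p ∈ n.primeFactors, n.factorization p = 1 → f p ∣ w) := by
      rw [Nat.primeFactors_mul hm hn, Nat.factorization_mul hm hn]
      have hm0 : ∀ p ∈ m.primeFactors, n.factorization p = 0 := by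
        intro p hp
        apply Nat.factorization_eq_zero_of_not_dvd
        intro hpn
        have hp' := Nat.mem_primeFactors.1 hp
        exact hp'.1.one_lt.ne' (Nat.dvd_one.1 (hmn ▸ Nat.dvd_gcd hp'.2.1 hpn))
      have hn0 : ∀ p ∈ n.primeFactors, m.factorization p = 0 := by
        intro p hp
        apply Nat.factorization_eq_zero_of_not_dvd
        intro hpm
        have hp' := Nat.mem_primeFactors.1 hp
        exact hp'.1.one_lt.ne' (Nat.dvd_one.1 (hmn ▸ Nat.dvd_gcd hpm hp'.2.1))
      constructor
      · intro h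
        refine ⟨fun p hp h1 => h p (mem_union_left _ hp) ?_, fun p hp h1 =>
          h p (mem_union_right _ hp) ?_⟩
        · rw [Finsupp.add_apply, hm0 p hp, h1]
        · rw [Finsupp.add_apply, hn0 p hp, h1]
      · rintro ⟨h1, h2⟩ p hp h3
        rw [Finsupp.add_apply] at h3
        rcases mem_union.1 hp with hp | hp
        · apply h1 p hp
          rw [hm0 p hp] at h3
          exact h3
        · apply h2 p hp
          rw [hn0 p hp, zero_add] at h3
          exact h3
    rw [hG, hG, hG]
    by_cases h1 : ∀ p ∈ m.primeFactors, m.factorization p = 1 → f p ∣ w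
    · by_cases h2 : ∀ p ∈ n.primeFactors, n.factorization p = 1 → f p ∣ w
      · rw [if_pos h1, if_pos h2, if_pos (e.2 ⟨h1, h2⟩), Nat.cast_mul,
          Real.mul_rpow (by positivity) (by positivity)]
      · rw [if_neg h2, if_neg (fun h => h2 (e.1 h).2), mul_zero]
    · rw [if_neg h1, if_neg (fun h => h1 (e.1 h).1), zero_mul]
  have h := euler hκ G (fun m => by rw [hG]; split_ifs <;> positivity) (by rw [hG]; simp) hmul
    (fun p hp a => by
      rw [hG]
      split_ifs
      · rw [Nat.cast_pow, ← Real.rpow_natCast, ← Real.rpow_mul (by positivity),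
          ← Real.rpow_natCast, ← Real.rpow_mul (by positivity), mul_comm]
      · positivity) N
  -- the solutions
  have hsol : ∀ m ∈ (Icc 1 N).filter (fun m => f m = w), G m = (m : ℝ) ^ (-κ) := by
    intro m hm
    rw [mem_filter, mem_Icc] at hm
    rw [hG, if_pos]
    intro p hp h1
    have hp' := Nat.mem_primeFactors.1 hp
    obtain ⟨n, rfl⟩ := hp'.2.1
    have hcop : Nat.Coprime p n := by
      rw [Nat.Prime.coprime_iff_not_dvd hp'.1]
      intro hpn
      have hn0 : n ≠ 0 := by
        rintro rfl
        exact hp'.2.2 (mul_zero _)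
      have h3 := hp'.1.factorization_pos_of_dvd hn0 hpn
      rw [Nat.factorization_mul hp'.1.ne_zero hn0, Finsupp.add_apply,
        hp'.1.factorization_self] at h1
      omega
    rw [← hm.2, hf.mul p n hcop]
    exact Dvd.intro _ rfl
  have h1 : (((Icc 1 N).filter (fun m => f m = w)).card : ℝ) * (N : ℝ) ^ (-κ) ≤
      ∑ m ∈ Icc 1 N, G m := by
    refine le_trans ?_ (sum_le_sum_of_subset_of_nonneg (filter_subset (fun m => f m = w) _)
      (fun m _ _ => by rw [hG]; split_ifs <;> positivity))
    rw [sum_congr rfl hsol, ← nsmul_eq_mul, ← sum_const]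
    apply sum_le_sum
    intro m hm
    rw [mem_filter, mem_Icc] at hm
    apply Real.rpow_le_rpow_of_nonpos
    · exact_mod_cast hm.1.1
    · exact_mod_cast hm.1.2
    · linarith
  by_cases hN : N = 0
  · subst hN
    simp only [Nat.lt_one_iff, pos_of_gt, Icc_eq_empty_of_lt, filter_empty, card_empty,
      CharP.cast_eq_zero]
    positivity
  have hN0 : (0 : ℝ) < N := by exact_mod_cast Nat.pos_of_ne_zero hN
  have h2 : (((Icc 1 N).filter (fun m => f m = w)).card : ℝ) ≤
      (N : ℝ) ^ κ * ∑ m ∈ Icc 1 N, G m := by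
    have e1 : (N : ℝ) ^ κ * (N : ℝ) ^ (-κ) = 1 := by
      rw [← Real.rpow_add hN0, add_neg_cancel, Real.rpow_zero]
    calc (((Icc 1 N).filter (fun m => f m = w)).card : ℝ)
        = (N : ℝ) ^ κ * ((((Icc 1 N).filter (fun m => f m = w)).card : ℝ) * (N : ℝ) ^ (-κ)) := by
          rw [mul_left_comm, e1, mul_one]
      _ ≤ _ := by gcongr
  refine h2.trans ?_
  apply mul_le_mul_of_nonneg_left _ (by positivity)
  refine h.trans ?_
  rw [Real.exp_le_exp]
  -- the sum over the primes
  have h3 : ∑ p ∈ PP N, G p ≤ P + M * ∑ d ∈ w.divisors, (d : ℝ) ^ (-κ) := by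
    rw [← sum_filter_add_sum_filter_not (PP N) (fun p => p < P)]
    apply add_le_add
    · calc ∑ p ∈ (PP N).filter (fun p => p < P), G p ≤ ∑ p ∈ (PP N).filter (fun p => p < P), 1 := by
            apply sum_le_sum
            intro p hp
            rw [mem_filter, mem_filter, mem_Icc] at hp
            rw [hG]
            split_ifs
            · apply Real.rpow_le_one_of_one_le_of_nonpos
              · exact_mod_cast hp.1.1.1
              · linarith
            · norm_num
        _ = (((PP N).filter (fun p => p < P)).card : ℝ) := by simp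
        _ ≤ ((range P).card : ℝ) := by
            have : (PP N).filter (fun p => p < P) ⊆ range P := by
              intro p hp
              rw [mem_filter] at hp
              exact mem_range.2 hp.2
            exact_mod_cast card_le_card this
        _ = P := by simp
    · have e1 : ∀ p ∈ (PP N).filter (fun p => ¬ p < P), G p ≤
          if f p ∣ w then (M : ℝ) * (f p : ℝ) ^ (-κ) else 0 := by
        intro p hp
        rw [mem_filter, mem_filter, mem_Icc] at hp
        have hpp := hp.1.2
        have hPp : P ≤ p := by omega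
        rw [hG]
        by_cases h4 : f p ∣ w
        · rw [if_pos h4]
          refine le_trans (b := (p : ℝ) ^ (-κ)) (by split_ifs <;> [exact le_rfl; positivity]) ?_
          have h5 := (hPM p hPp hpp).1
          have h6 := hf.pos p hpp.one_lt.le
          have hM1 : 1 ≤ M := by
            rcases Nat.eq_zero_or_pos M with h | h
            · subst h
              omega
            · exact h
          have hM1r : (1 : ℝ) ≤ M := by exact_mod_cast hM1
          have h6r : (0 : ℝ) < f p := by exact_mod_cast h6
          have h5r : (f p : ℝ) ≤ M * p := by exact_mod_cast h5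
          have hp0 : (0 : ℝ) < p := by exact_mod_cast hpp.pos
          calc (p : ℝ) ^ (-κ) = (M : ℝ) ^ κ * ((M : ℝ) * p) ^ (-κ) := by
                rw [Real.mul_rpow (by positivity) (by positivity), ← mul_assoc,
                  ← Real.rpow_add (by linarith), add_neg_cancel, Real.rpow_zero, one_mul]
            _ ≤ (M : ℝ) * (f p : ℝ) ^ (-κ) := by
                apply mul_le_mul
                · calc (M : ℝ) ^ κ ≤ (M : ℝ) ^ (1 : ℝ) :=
                        Real.rpow_le_rpow_of_exponent_le hM1r hκ1
                    _ = M := Real.rpow_one _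
                · exact Real.rpow_le_rpow_of_nonpos h6r h5r (by linarith)
                · positivity
                · positivity
        · rw [if_neg h4, if_neg]
          intro h5
          apply h4
          apply h5 p
          · rw [hpp.primeFactors]
            exact mem_singleton_self _
          · exact hpp.factorization_self
      refine (sum_le_sum e1).trans ?_
      rw [← sum_filter, ← mul_sum]
      apply mul_le_mul_of_nonneg_left _ (by positivity)
      have hinj : Set.InjOn f (((PP N).filter (fun p => ¬ p < P)).filter (fun p => f p ∣ w) :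
          Finset ℕ) := by
        intro p hp q hq hpq
        rw [mem_coe, mem_filter, mem_filter, mem_filter] at hp hq
        exact ((hPM q (by omega) hq.1.1.2).2 p (by omega) hp.1.1.2 hpq)
      rw [← sum_image (f := fun d : ℕ => (d : ℝ) ^ (-κ)) hinj]
      apply sum_le_sum_of_subset_of_nonneg
      · intro d hd
        rw [mem_image] at hd
        obtain ⟨p, hp, rfl⟩ := hd
        rw [mem_filter] at hp
        rw [Nat.mem_divisors]
        exact ⟨hp.2, by omega⟩
      · intros
        positivity
  have h4 : 0 ≤ ∑ d ∈ w.divisors, (d : ℝ) ^ (-κ) := sum_nonneg fun d _ => by positivity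
  have h5 : (0 : ℝ) ≤ P := by positivity
  have h6 : (0 : ℝ) ≤ M := by positivity
  nlinarith [mul_nonneg h5 h4, mul_nonneg hZ h4]

end Pool.Agent.D0H54.PV
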