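import Mathlib

set_option autoImplicit false

/-! One exceptional set for countably many problems (helper54). -/

namespace Pool.Agent.D0H54.PV

open Finset Classical Filter

/-- Countably many problems `i`, with exceptional pairs `(u, θ)`. If for every `i` at most `β j X` of the `u ≤ X` are
exceptional, for all `j` and all large `X`, uniformly in `θ`, then there is one set `E` with this property which contains all
exceptional pairs with large `u`, for every `i`. -/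
theorem diag {ι Θ : Type} [Countable ι] (β : ℕ → ℕ → ℝ) (hβ0 : ∀ j X, 0 ≤ β j X)
    (hβ1 : ∀ j, ∀ᶠ X in atTop, ∀ i ∈ range (j + 1), β j X ≤ β i X)
    (hβ2 : ∀ j : ℕ, ∀ᶠ X in atTop, ((j : ℝ) + 1) * β (j + 1) X ≤ β j X)
    (Bad : ι → ℕ → Θ → Prop)
    (h : ∀ i j, ∃ X₀ : ℕ, ∀ X : ℕ, X₀ ≤ X → ∀ θ, ({u : ℕ | 1 ≤ u ∧ u ≤ X ∧ Bad i u θ}.ncard : ℝ) ≤ β j X) :
    ∃ E : ℕ → Θ → Prop,
      (∀ j, ∃ X₀ : ℕ, ∀ X : ℕ, X₀ ≤ X → ∀ θ, ({u : ℕ | 1 ≤ u ∧ u ≤ X ∧ E u θ}.ncard : ℝ) ≤ β j X) ∧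
      ∀ i, ∃ u₀ : ℕ, ∀ u : ℕ, u₀ ≤ u → ∀ θ, Bad i u θ → E u θ := by
  rcases isEmpty_or_nonempty ι with hι | hι
  · refine ⟨fun _ _ => False, fun j => ⟨0, fun X _ θ => ?_⟩, fun i => (hι.false i).elim⟩
    have : {u : ℕ | 1 ≤ u ∧ u ≤ X ∧ False} = ∅ := by
      ext u
      simp
    rw [this, Set.ncard_empty, Nat.cast_zero]
    exact hβ0 j X
  obtain ⟨g, hg⟩ := exists_surjective_nat ι
  -- the thresholds
  have hex : ∀ J : ℕ, ∃ Y : ℕ, ∀ X : ℕ, Y ≤ X →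
      (∀ i ∈ range (J + 1), ∀ θ, ({u : ℕ | 1 ≤ u ∧ u ≤ X ∧ Bad (g i) u θ}.ncard : ℝ) ≤ β (J + 1) X) ∧
      ((J : ℝ) + 1) * β (J + 1) X ≤ β J X ∧ ∀ i ∈ range (J + 1), β J X ≤ β i X := by
    intro J
    have h1 : ∀ᶠ X in atTop, ∀ i ∈ range (J + 1), ∀ θ,
        ({u : ℕ | 1 ≤ u ∧ u ≤ X ∧ Bad (g i) u θ}.ncard : ℝ) ≤ β (J + 1) X := by
      rw [Filter.eventually_all_finset]
      intro i _
      obtain ⟨X₀, hX₀⟩ := h (g i) (J + 1)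
      exact eventually_atTop.2 ⟨X₀, hX₀⟩
    obtain ⟨Y, hY⟩ := eventually_atTop.1 (h1.and ((hβ2 J).and (hβ1 J)))
    exact ⟨Y, hY⟩
  choose Y' hY' using hex
  obtain ⟨Y, hY⟩ : ∃ Y : ℕ → ℕ, ∀ J, Y J = (range (J + 1)).sup Y' + J := ⟨_, fun _ => rfl⟩
  have hYY' : ∀ J, Y' J ≤ Y J := by
    intro J
    rw [hY]
    exact le_trans (le_sup (f := Y') (mem_range.2 (Nat.lt_succ_self J))) (Nat.le_add_right _ _)
  have hYJ : ∀ J, J ≤ Y J := by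
    intro J
    rw [hY]
    exact Nat.le_add_left _ _
  have hmono : Monotone Y := by
    intro i j hij
    rw [hY, hY]
    refine Nat.add_le_add (Finset.sup_mono ?_) hij
    intro l hl
    rw [mem_range] at hl ⊢
    omega
  refine ⟨fun u θ => ∃ j, Y j ≤ u ∧ Bad (g j) u θ, fun j₀ => ⟨Y j₀, fun X hX θ => ?_⟩, fun i => ?_⟩
  · obtain ⟨J, hJ⟩ : ∃ J : ℕ, J = Nat.findGreatest (fun j => Y j ≤ X) X := ⟨_, rfl⟩
    have hj₀X : j₀ ≤ X := (hYJ j₀).trans hX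
    have hJ1 : j₀ ≤ J := by
      rw [hJ]
      exact Nat.le_findGreatest hj₀X hX
    have hJ2 : Y J ≤ X := by
      rw [hJ]
      exact Nat.findGreatest_spec (P := fun j => Y j ≤ X) hj₀X hX
    obtain ⟨e1, e2, e3⟩ := hY' J X ((hYY' J).trans hJ2)
    have hsub : {u : ℕ | 1 ≤ u ∧ u ≤ X ∧ ∃ j, Y j ≤ u ∧ Bad (g j) u θ} ⊆
        ⋃ j ∈ range (J + 1), {u : ℕ | 1 ≤ u ∧ u ≤ X ∧ Bad (g j) u θ} := by
      rintro u ⟨h1, h2, j, h3, h4⟩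
      rw [Set.mem_iUnion₂]
      refine ⟨j, ?_, h1, h2, h4⟩
      rw [mem_range, Nat.lt_succ_iff, hJ]
      exact Nat.le_findGreatest ((hYJ j).trans (h3.trans h2)) (h3.trans h2)
    have hfin : (⋃ j ∈ range (J + 1), {u : ℕ | 1 ≤ u ∧ u ≤ X ∧ Bad (g j) u θ}).Finite := by
      apply (Set.finite_Icc 1 X).subset
      intro u hu
      rw [Set.mem_iUnion₂] at hu
      obtain ⟨j, _, h1, h2, _⟩ := hu
      exact ⟨h1, h2⟩
    have h1 := (Set.ncard_le_ncard hsub hfin).trans (Finset.set_ncard_biUnion_le _ _)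
    calc ({u : ℕ | 1 ≤ u ∧ u ≤ X ∧ ∃ j, Y j ≤ u ∧ Bad (g j) u θ}.ncard : ℝ)
        ≤ ((∑ j ∈ range (J + 1), {u : ℕ | 1 ≤ u ∧ u ≤ X ∧ Bad (g j) u θ}.ncard : ℕ) : ℝ) := by exact_mod_cast h1
      _ ≤ ∑ j ∈ range (J + 1), β (J + 1) X := by
          rw [Nat.cast_sum]
          exact sum_le_sum fun j hj => e1 j hj θ
      _ = ((J : ℝ) + 1) * β (J + 1) X := by
          rw [sum_const, card_range, nsmul_eq_mul]
          push_cast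
          rfl
      _ ≤ β J X := e2
      _ ≤ β j₀ X := e3 j₀ (mem_range.2 (Nat.lt_succ_of_le hJ1))
  · obtain ⟨j, rfl⟩ := hg i
    exact ⟨Y j, fun u hu θ hB => ⟨j, hu, hB⟩⟩

end Pool.Agent.D0H54.PV
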