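import Mathlib

set_option autoImplicit false

/-! One exceptional set for countably many problems, for tuples (helper54). -/

namespace Pool.Agent.D0H54.PV

open Finset Classical Filter

/-- Countably many problems `i`, with exceptional points `a`, in boxes `B X` of points of size at most `X`. If for every `i`
at most `β j X` points of the box are exceptional, for all `j` and all large `X`, then there is one set `E` with this property
which contains all exceptional points of large size, for every `i`. -/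
theorem diagS {ι α : Type} [Countable ι] (B : ℕ → Set α) (hB : ∀ X, (B X).Finite) (size : α → ℕ)
    (hsize : ∀ X, ∀ a ∈ B X, size a ≤ X) (β : ℕ → ℕ → ℝ) (hβ0 : ∀ j X, 0 ≤ β j X)
    (hβ1 : ∀ j, ∀ᶠ X in atTop, ∀ i ∈ range (j + 1), β j X ≤ β i X)
    (hβ2 : ∀ j : ℕ, ∀ᶠ X in atTop, ((j : ℝ) + 1) * β (j + 1) X ≤ β j X)
    (Bad : ι → α → Prop)
    (h : ∀ i j, ∃ X₀ : ℕ, ∀ X : ℕ, X₀ ≤ X → ({a : α | a ∈ B X ∧ Bad i a}.ncard : ℝ) ≤ β j X) :
    ∃ E : Set α,
      (∀ j, ∃ X₀ : ℕ, ∀ X : ℕ, X₀ ≤ X → ({a : α | a ∈ B X ∧ a ∈ E}.ncard : ℝ) ≤ β j X) ∧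
      ∀ i, ∃ u₀ : ℕ, ∀ a : α, u₀ ≤ size a → Bad i a → a ∈ E := by
  rcases isEmpty_or_nonempty ι with hι | hι
  · refine ⟨∅, fun j => ⟨0, fun X _ => ?_⟩, fun i => (hι.false i).elim⟩
    have : {a : α | a ∈ B X ∧ a ∈ (∅ : Set α)} = ∅ := by
      ext u
      simp
    rw [this, Set.ncard_empty, Nat.cast_zero]
    exact hβ0 j X
  obtain ⟨g, hg⟩ := exists_surjective_nat ι
  -- the thresholds
  have hex : ∀ J : ℕ, ∃ Y : ℕ, ∀ X : ℕ, Y ≤ X →
      (∀ i ∈ range (J + 1), ({a : α | a ∈ B X ∧ Bad (g i) a}.ncard : ℝ) ≤ β (J + 1) X) ∧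
      ((J : ℝ) + 1) * β (J + 1) X ≤ β J X ∧ ∀ i ∈ range (J + 1), β J X ≤ β i X := by
    intro J
    have h1 : ∀ᶠ X in atTop, ∀ i ∈ range (J + 1),
        ({a : α | a ∈ B X ∧ Bad (g i) a}.ncard : ℝ) ≤ β (J + 1) X := by
      rw [Filter.eventually_all_finset]
      intro i _
      obtain ⟨X₀, hX₀⟩ := h (g i) (J + 1)
      exact eventually_atTop.2 ⟨X₀, hX₀⟩
    obtain ⟨Y, hY⟩ := eventually_atTop.1 (h1.and ((hβ2 J).and (hβ1 J)))
    exact ⟨Y, hY⟩
  choose Y' hY' using hex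
  obtain ⟨Y, hY⟩ : ∃ Y : ℕ → ℕ, ∀ J, Y J = (range (J + 1)).sup Y' + J := ⟨_, fun _ => rfl⟩
  have hYY' : ∀ J, Y' J ≤ Y J := by
    intro J
    rw [hY]
    exact le_trans (le_sup (f := Y') (mem_range.2 (Nat.lt_succ_self J))) (Nat.le_add_right _ _)
  have hYJ : ∀ J, J ≤ Y J := by
    intro J
    rw [hY]
    exact Nat.le_add_left _ _
  refine ⟨{a | ∃ j, Y j ≤ size a ∧ Bad (g j) a}, fun j₀ => ⟨Y j₀, fun X hX => ?_⟩, fun i => ?_⟩
  · obtain ⟨J, hJ⟩ : ∃ J : ℕ, J = Nat.findGreatest (fun j => Y j ≤ X) X := ⟨_, rfl⟩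
    have hj₀X : j₀ ≤ X := (hYJ j₀).trans hX
    have hJ1 : j₀ ≤ J := by
      rw [hJ]
      exact Nat.le_findGreatest hj₀X hX
    have hJ2 : Y J ≤ X := by
      rw [hJ]
      exact Nat.findGreatest_spec (P := fun j => Y j ≤ X) hj₀X hX
    obtain ⟨e1, e2, e3⟩ := hY' J X ((hYY' J).trans hJ2)
    have hsub : {a : α | a ∈ B X ∧ a ∈ {a | ∃ j, Y j ≤ size a ∧ Bad (g j) a}} ⊆
        ⋃ j ∈ range (J + 1), {a : α | a ∈ B X ∧ Bad (g j) a} := by
      rintro a ⟨h1, j, h3, h4⟩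
      have h2 := hsize X a h1
      rw [Set.mem_iUnion₂]
      refine ⟨j, ?_, h1, h4⟩
      rw [mem_range, Nat.lt_succ_iff, hJ]
      exact Nat.le_findGreatest ((hYJ j).trans (h3.trans h2)) (h3.trans h2)
    have hfin : (⋃ j ∈ range (J + 1), {a : α | a ∈ B X ∧ Bad (g j) a}).Finite := by
      apply (hB X).subset
      intro a ha
      rw [Set.mem_iUnion₂] at ha
      obtain ⟨j, _, h1, _⟩ := ha
      exact h1
    have h1 := (Set.ncard_le_ncard hsub hfin).trans (Finset.set_ncard_biUnion_le _ _)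
    calc ({a : α | a ∈ B X ∧ a ∈ {a | ∃ j, Y j ≤ size a ∧ Bad (g j) a}}.ncard : ℝ)
        ≤ ((∑ j ∈ range (J + 1), {a : α | a ∈ B X ∧ Bad (g j) a}.ncard : ℕ) : ℝ) := by exact_mod_cast h1
      _ ≤ ∑ j ∈ range (J + 1), β (J + 1) X := by
          rw [Nat.cast_sum]
          exact sum_le_sum fun j hj => e1 j hj
      _ = ((J : ℝ) + 1) * β (J + 1) X := by
          rw [sum_const, card_range, nsmul_eq_mul]
          push_cast
          rfl
      _ ≤ β J X := e2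
      _ ≤ β j₀ X := e3 j₀ (mem_range.2 (Nat.lt_succ_of_le hJ1))
  · obtain ⟨j, rfl⟩ := hg i
    exact ⟨Y j, fun a ha hB => ⟨j, ha, hB⟩⟩

/-- the rate `X ^ k / (log X) ^ j` -/
noncomputable def βk (k j X : ℕ) : ℝ := (X : ℝ) ^ k / Real.log X ^ j

lemma βk_nonneg (k j X : ℕ) : 0 ≤ βk k j X := by
  unfold βk
  have := Real.log_natCast_nonneg X
  positivity

lemma log_tendsto' : Tendsto (fun N : ℕ => Real.log (N : ℝ)) atTop atTop :=
  Real.tendsto_log_atTop.comp tendsto_natCast_atTop_atTop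

lemma βk_anti (k j : ℕ) : ∀ᶠ X : ℕ in atTop, ∀ i ∈ range (j + 1), βk k j X ≤ βk k i X := by
  filter_upwards [log_tendsto'.eventually_ge_atTop 1] with X hX i hi
  rw [mem_range] at hi
  unfold βk
  apply div_le_div_of_nonneg_left (by positivity) (by positivity)
  exact pow_le_pow_right₀ hX (by omega)

lemma βk_step (k j : ℕ) : ∀ᶠ X : ℕ in atTop, ((j : ℝ) + 1) * βk k (j + 1) X ≤ βk k j X := by
  filter_upwards [log_tendsto'.eventually_ge_atTop ((j : ℝ) + 1)] with X hX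
  unfold βk
  have h0 : 0 < Real.log X := by
    have : (0 : ℝ) ≤ j := Nat.cast_nonneg j
    linarith
  rw [pow_succ (Real.log (X : ℝ)), ← mul_div_assoc, div_le_div_iff₀ (by positivity) (by positivity)]
  have h1 : (0 : ℝ) ≤ (X : ℝ) ^ k * Real.log X ^ j := by positivity
  nlinarith

end Pool.Agent.D0H54.PV
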