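import Pool.Agent.D0H54.PV.Pop

set_option autoImplicit false

/-! Rational numbers with multiplicative numerators avoid very small sets (helper54). The divisor bound
`divisor_bound` is copied from the starting file `S16173`. -/

namespace Pool.Agent.D0H54.PV

open Finset Classical Filter
open Pool.Agent.N733.TG (LM)

/-- A divisor bound with a free threshold `s`. -/
lemma divisor_bound (n s : ℕ) (hn : n ≠ 0) (hs : 2 ≤ s) :
    (n.divisors.card : ℝ) ≤
      Real.exp (Real.log 2 / Real.log s * Real.log n) * ((Nat.log 2 n : ℝ) + 1) ^ s := by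
  rw [Nat.card_divisors hn]
  push_cast
  have hs0 : (1 : ℝ) < s := by exact_mod_cast (by omega : 1 < s)
  have hls : 0 < Real.log s := Real.log_pos hs0
  have hl2 : 0 < Real.log 2 := Real.log_pos (by norm_num)
  set a : ℝ := Real.log 2 / Real.log s with ha
  have ha0 : 0 < a := div_pos hl2 hls
  set B : ℝ := (Nat.log 2 n : ℝ) + 1 with hB
  have hB1 : 1 ≤ B := by
    have : (0 : ℝ) ≤ (Nat.log 2 n : ℝ) := Nat.cast_nonneg _
    linarith
  have hstep : ∏ p ∈ n.primeFactors, ((n.factorization p : ℝ) + 1) ≤
      ∏ p ∈ n.primeFactors, (Real.exp (a * ((n.factorization p : ℝ) * Real.log p)) *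
        (if p ≤ s then B else 1)) := by
    apply Finset.prod_le_prod
    · intro p _; positivity
    · intro p hp
      have hpp := Nat.prime_of_mem_primeFactors hp
      have hp1 : (1 : ℝ) < p := by exact_mod_cast hpp.one_lt
      have hlp : 0 < Real.log p := Real.log_pos hp1
      have hv0 : (0 : ℝ) ≤ (n.factorization p : ℝ) := Nat.cast_nonneg _
      by_cases hps : p ≤ s
      · rw [if_pos hps]
        have h1 : 1 ≤ Real.exp (a * ((n.factorization p : ℝ) * Real.log p)) := by
          apply Real.one_le_exp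
          positivity
        have h2 : n.factorization p ≤ Nat.log 2 n := by
          apply Nat.le_log_of_pow_le (by norm_num)
          calc 2 ^ n.factorization p ≤ p ^ n.factorization p :=
                Nat.pow_le_pow_left hpp.two_le _
            _ ≤ n := Nat.ordProj_le p hn
        have h3 : (n.factorization p : ℝ) + 1 ≤ B := by
          rw [hB]
          have : (n.factorization p : ℝ) ≤ (Nat.log 2 n : ℝ) := by exact_mod_cast h2
          linarith
        calc (n.factorization p : ℝ) + 1 ≤ B := h3
          _ = 1 * B := by ring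
          _ ≤ _ := mul_le_mul_of_nonneg_right h1 (by linarith)
      · rw [if_neg hps, mul_one]
        have h1 : (n.factorization p : ℝ) + 1 ≤ 2 ^ (n.factorization p) := by
          exact_mod_cast Nat.succ_le_of_lt (Nat.lt_two_pow_self)
        have h2 : (2 : ℝ) ^ (n.factorization p) =
            Real.exp (Real.log 2 * (n.factorization p : ℝ)) := by
          rw [mul_comm, Real.exp_nat_mul, Real.exp_log (by norm_num)]
        rw [h2] at h1
        refine le_trans h1 ?_
        apply Real.exp_le_exp.mpr
        have h3 : Real.log s ≤ Real.log p := by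
          apply Real.log_le_log (by linarith)
          exact_mod_cast (by omega : s ≤ p)
        have h4 : Real.log 2 = a * Real.log s := by rw [ha]; field_simp
        calc Real.log 2 * (n.factorization p : ℝ)
            = a * ((n.factorization p : ℝ) * Real.log s) := by rw [h4]; ring
          _ ≤ a * ((n.factorization p : ℝ) * Real.log p) := by
              apply mul_le_mul_of_nonneg_left _ ha0.le
              exact mul_le_mul_of_nonneg_left h3 hv0
  refine le_trans hstep ?_
  rw [Finset.prod_mul_distrib]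
  apply mul_le_mul
  · rw [← Real.exp_sum, ← Finset.mul_sum]
    apply Real.exp_le_exp.mpr
    apply le_of_eq
    rw [Real.log_nat_eq_sum_factorization n]
    rfl
  · rw [Finset.prod_ite, Finset.prod_const_one, mul_one, Finset.prod_const]
    apply pow_le_pow_right₀ hB1
    calc (n.primeFactors.filter (fun p => p ≤ s)).card ≤ (Finset.Icc 1 s).card := by
          apply Finset.card_le_card
          intro p hp
          obtain ⟨h1, h2⟩ := Finset.mem_filter.mp hp
          exact Finset.mem_Icc.mpr ⟨(Nat.prime_of_mem_primeFactors h1).pos, h2⟩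
      _ = s := by simp
  · apply Finset.prod_nonneg
    intro p _
    split_ifs <;> linarith
  · positivity

/-- the conditions on `y = log log N` -/
lemma eventually_y2 {δ : ℝ} (hδ : 0 < δ) (a s : ℕ) (R : ℝ) :
    ∀ᶠ y : ℝ in atTop, 3 ≤ y ∧ 1 ≤ Real.log y ∧
      2 * a * (Real.exp y / y) + (Real.exp (y / 2) + 2) * (y + 2 * a + 2) ≤
        δ * (Real.exp y * Real.log y / y) ∧
      R + s * y ≤ δ * (Real.exp y * Real.log y / y) := by
  filter_upwards [eventually_ge_atTop 3, eventually_ge_atTop (400 * ((a : ℝ) + 1)),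
    Real.tendsto_log_atTop.eventually_ge_atTop 1,
    Real.tendsto_log_atTop.eventually_ge_atTop ((2 * (a : ℝ) + 1) / δ),
    Real.tendsto_log_atTop.eventually_ge_atTop ((|R| + s) / δ)] with y y1 y2 y3 y4 y5
  have hy0 : 0 < y := by linarith
  have ha : (0 : ℝ) ≤ a := Nat.cast_nonneg a
  have hs : (0 : ℝ) ≤ s := Nat.cast_nonneg s
  rw [div_le_iff₀ hδ] at y4 y5
  have e0 := Real.pow_div_factorial_le_exp (y / 2) (by positivity) 3
  have e1 : y ^ 3 / 48 ≤ Real.exp (y / 2) := by
    refine le_trans (le_of_eq ?_) e0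
    rw [show Nat.factorial 3 = 6 from rfl]
    push_cast
    ring
  have e2 : (2 : ℝ) ≤ Real.exp (y / 2) := by
    have := Real.add_one_le_exp (y / 2)
    linarith
  have e3 : 2 * (y + 2 * a + 2) * y ≤ Real.exp (y / 2) := by
    refine le_trans ?_ e1
    have h1 : 96 * (y + 2 * a + 2) ≤ y ^ 2 := by nlinarith
    nlinarith
  have e4 : Real.exp y = Real.exp (y / 2) * Real.exp (y / 2) := by
    rw [← Real.exp_add]
    congr 1
    ring
  have e5 : (Real.exp (y / 2) + 2) * (y + 2 * a + 2) ≤ Real.exp y / y := by
    rw [le_div_iff₀ hy0, e4]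
    have h2 : (0 : ℝ) ≤ y + 2 * a + 2 := by linarith
    calc (Real.exp (y / 2) + 2) * (y + 2 * a + 2) * y
        ≤ (Real.exp (y / 2) + Real.exp (y / 2)) * (y + 2 * a + 2) * y := by gcongr
      _ = Real.exp (y / 2) * (2 * (y + 2 * a + 2) * y) := by ring
      _ ≤ Real.exp (y / 2) * Real.exp (y / 2) := by gcongr
  have hE : 0 < Real.exp y / y := by positivity
  have e6 : δ * (Real.exp y * Real.log y / y) = (Real.log y * δ) * (Real.exp y / y) := by ring
  refine ⟨y1, y3, ?_, ?_⟩
  · rw [e6]
    have : (2 * (a : ℝ) + 1) * (Real.exp y / y) ≤ Real.log y * δ * (Real.exp y / y) :=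
      mul_le_mul_of_nonneg_right y4 hE.le
    linarith
  · rw [e6]
    have h1 : (|R| + s) * (Real.exp y / y) ≤ Real.log y * δ * (Real.exp y / y) :=
      mul_le_mul_of_nonneg_right y5 hE.le
    have h2 : y ≤ Real.exp y / y := by
      refine le_trans ?_ e5
      nlinarith
    have h3 : R ≤ |R| * (Real.exp y / y) := by
      have : (1 : ℝ) ≤ Real.exp y / y := by linarith
      have h4 := le_abs_self R
      have h5 := abs_nonneg R
      nlinarith
    have h4 : s * y ≤ s * (Real.exp y / y) := mul_le_mul_of_nonneg_left h2 hs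
    nlinarith

/-- the number of the divisors of a number `v ≤ N ^ a` -/
lemma div_card {N v a : ℕ} {L y : ℝ} (hL : L = Real.log N) (hy : L = Real.exp y) (hy3 : 3 ≤ y)
    (hv : 1 ≤ v) (hva : v ≤ N ^ a) :
    (v.divisors.card : ℝ) ≤
      Real.exp (2 * a * (Real.exp y / y) + (Real.exp (y / 2) + 2) * (y + 2 * a + 2)) := by
  obtain ⟨s, hs⟩ : ∃ s : ℕ, s = ⌈Real.exp (y / 2)⌉₊ := ⟨_, rfl⟩
  have hy0 : 0 < y := by linarith
  have hL0 : 0 < L := by rw [hy]; positivity
  have hs1 : Real.exp (y / 2) ≤ s := by rw [hs]; exact Nat.le_ceil _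
  have hs2 : (s : ℝ) ≤ Real.exp (y / 2) + 2 := by
    rw [hs]
    have := Nat.ceil_lt_add_one (Real.exp_pos (y / 2)).le
    linarith
  have hs3 : 2 ≤ s := by
    have h1 := Real.add_one_le_exp (y / 2)
    have h2 : (2 : ℝ) ≤ s := by linarith
    exact_mod_cast h2
  have h1 := divisor_bound v s (by omega) hs3
  have ha : (0 : ℝ) ≤ a := Nat.cast_nonneg a
  have hlv : Real.log v ≤ a * L := by
    have h2 : (v : ℝ) ≤ (N : ℝ) ^ a := by exact_mod_cast hva
    have h3 := Real.log_le_log (by exact_mod_cast hv) h2
    rwa [Real.log_pow, ← hL] at h3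
  have hlv0 : 0 ≤ Real.log v := Real.log_natCast_nonneg v
  have hlog2 : Real.log 2 ≤ 1 := by
    have := Real.log_two_lt_d9
    linarith
  have hlog20 : 0 < Real.log 2 := Real.log_pos (by norm_num)
  have hlog2h : 1 / 2 ≤ Real.log 2 := by
    have := Real.log_two_gt_d9
    linarith
  have hls : y / 2 ≤ Real.log s := by
    have := Real.log_le_log (Real.exp_pos _) hs1
    rwa [Real.log_exp] at this
  refine h1.trans ?_
  rw [Real.exp_add]
  apply mul_le_mul
  · rw [Real.exp_le_exp]
    calc Real.log 2 / Real.log s * Real.log v ≤ 1 / (y / 2) * (a * L) := by gcongr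
      _ = 2 * a * (Real.exp y / y) := by
          rw [← hy]
          field_simp
  · have h4 : (Nat.log 2 v : ℝ) + 1 ≤ Real.exp (y + 2 * a + 2) := by
      have h5 : (Nat.log 2 v : ℝ) * Real.log 2 ≤ Real.log v := by
        have h6 : ((2 : ℝ) ^ Nat.log 2 v) ≤ v := by
          exact_mod_cast Nat.pow_log_le_self 2 (by omega)
        have h7 := Real.log_le_log (by positivity) h6
        rwa [Real.log_pow] at h7
      have h8 : (0 : ℝ) ≤ (Nat.log 2 v : ℝ) := Nat.cast_nonneg _
      have h9 : (Nat.log 2 v : ℝ) ≤ 2 * (a * L) := by nlinarith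
      have h10 : (1 : ℝ) ≤ L := by
        rw [hy]
        exact Real.one_le_exp hy0.le
      have h11 : 2 * (a : ℝ) + 1 ≤ Real.exp (2 * a) := Real.add_one_le_exp _
      calc (Nat.log 2 v : ℝ) + 1 ≤ (2 * a + 1) * L := by nlinarith
        _ ≤ Real.exp (2 * a) * Real.exp y := by rw [← hy]; gcongr
        _ ≤ Real.exp (y + 2 * a + 2) := by
            rw [← Real.exp_add, Real.exp_le_exp]
            linarith
    calc ((Nat.log 2 v : ℝ) + 1) ^ s ≤ (Real.exp (y + 2 * a + 2)) ^ s := by gcongr
      _ = Real.exp (s * (y + 2 * a + 2)) := by rw [← Real.exp_nat_mul]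
      _ ≤ Real.exp ((Real.exp (y / 2) + 2) * (y + 2 * a + 2)) := by
          rw [Real.exp_le_exp]
          gcongr
  · positivity
  · positivity

end Pool.Agent.D0H54.PV
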