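import Mathlib

set_option autoImplicit false

/-! A Rankin type bound for sums of multiplicative functions (helper54). -/

namespace Pool.Agent.D0H54.PV

open Finset Classical

/-- the primes up to `N` -/
abbrev PP (N : ℕ) : Finset ℕ := (Finset.Icc 1 N).filter Nat.Prime

lemma two_rpow_le : (2 : ℝ) ^ (-(3 / 4) : ℝ) ≤ 3 / 5 := by
  have h : (3 / 5 : ℝ) = ((3 / 5 : ℝ) ^ (4 : ℝ)) ^ ((1 : ℝ) / 4) := by
    rw [← Real.rpow_mul (by norm_num)]
    norm_num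
  have h2 : (2 : ℝ) ^ (-(3 / 4) : ℝ) = ((2 : ℝ) ^ (-3 : ℝ)) ^ ((1 : ℝ) / 4) := by
    rw [← Real.rpow_mul (by norm_num)]
    norm_num
  rw [h, h2]
  apply Real.rpow_le_rpow (by positivity) _ (by norm_num)
  rw [show (-3 : ℝ) = ((-3 : ℤ) : ℝ) by norm_num, Real.rpow_intCast,
    show (4 : ℝ) = ((4 : ℕ) : ℝ) by norm_num, Real.rpow_natCast]
  norm_num

lemma prime_rpow_le {κ : ℝ} (hκ : 3 / 4 ≤ κ) {p : ℕ} (hp : p.Prime) : (p : ℝ) ^ (-κ) ≤ 3 / 5 := by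
  have h2 : (2 : ℝ) ≤ p := by exact_mod_cast hp.two_le
  calc (p : ℝ) ^ (-κ) ≤ (p : ℝ) ^ (-(3 / 4) : ℝ) :=
        Real.rpow_le_rpow_of_exponent_le (by linarith) (by linarith)
    _ ≤ (2 : ℝ) ^ (-(3 / 4) : ℝ) :=
        Real.rpow_le_rpow_of_nonpos (by norm_num) h2 (by norm_num)
    _ ≤ 3 / 5 := two_rpow_le

/-- the local factor -/
lemma local_le {κ : ℝ} (hκ : 3 / 4 ≤ κ) {p : ℕ} (hp : p.Prime) (g : ℕ → ℝ) (h0 : ∀ a, 0 ≤ g a)
    (h1 : g 0 = 1) (hg : ∀ a, g a ≤ ((p : ℝ) ^ (-κ)) ^ a) :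
    Summable g ∧ ∑' a, g a ≤ 1 + g 1 + 5 / 2 * (p : ℝ) ^ (-(3 / 2) : ℝ) := by
  have hx0 : 0 ≤ (p : ℝ) ^ (-κ) := by positivity
  have hx := prime_rpow_le hκ hp
  set x := (p : ℝ) ^ (-κ) with hxdef
  have hs : Summable g := Summable.of_nonneg_of_le h0 hg
    (summable_geometric_of_lt_one hx0 (by linarith))
  refine ⟨hs, ?_⟩
  have e1 := hs.sum_add_tsum_nat_add 2
  rw [sum_range_succ, sum_range_succ, sum_range_zero, zero_add, h1] at e1
  have hs2 : Summable (fun a => g (a + 2)) := (summable_nat_add_iff 2).2 hs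
  have hsx : Summable (fun a : ℕ => x ^ 2 * x ^ a) :=
    (summable_geometric_of_lt_one hx0 (by linarith)).mul_left _
  have e2 : ∑' a, g (a + 2) ≤ ∑' a : ℕ, x ^ 2 * x ^ a := by
    refine hs2.tsum_le_tsum (fun a => ?_) hsx
    refine (hg (a + 2)).trans (le_of_eq ?_)
    rw [pow_add, mul_comm]
  rw [tsum_mul_left, tsum_geometric_of_lt_one hx0 (by linarith)] at e2
  have e3 : (1 - x)⁻¹ ≤ 5 / 2 := by
    rw [inv_le_comm₀ (by linarith) (by norm_num)]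
    linarith
  have e4 : x ^ 2 ≤ (p : ℝ) ^ (-(3 / 2) : ℝ) := by
    rw [hxdef, ← Real.rpow_natCast, ← Real.rpow_mul (by positivity)]
    apply Real.rpow_le_rpow_of_exponent_le
    · exact_mod_cast hp.one_lt.le
    · push_cast
      linarith
  have e5 : x ^ 2 * (1 - x)⁻¹ ≤ (p : ℝ) ^ (-(3 / 2) : ℝ) * (5 / 2) :=
    mul_le_mul e4 e3 (by rw [inv_nonneg]; linarith) (by positivity)
  linarith

/-- the sum of `n ^ (-3/2)` -/
noncomputable def Z : ℝ := ∑' n : ℕ, (n : ℝ) ^ (-(3 / 2) : ℝ)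

lemma summable_Z : Summable (fun n : ℕ => (n : ℝ) ^ (-(3 / 2) : ℝ)) :=
  Real.summable_nat_rpow.2 (by norm_num)

lemma Z_nonneg : 0 ≤ Z := tsum_nonneg fun n => by positivity

/-- the Euler product bound -/
theorem euler {κ : ℝ} (hκ : 3 / 4 ≤ κ) (G : ℕ → ℝ) (h0 : ∀ m, 0 ≤ G m) (h1 : G 1 = 1)
    (hmul : ∀ m n : ℕ, Nat.Coprime m n → G (m * n) = G m * G n)
    (hp : ∀ p : ℕ, p.Prime → ∀ a : ℕ, G (p ^ a) ≤ ((p : ℝ) ^ (-κ)) ^ a) (N : ℕ) :
    ∑ m ∈ Icc 1 N, G m ≤ Real.exp (∑ p ∈ PP N, G p + 5 / 2 * Z) := by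
  have hloc : ∀ p : ℕ, p.Prime → Summable (fun a : ℕ => G (p ^ a)) ∧
      ∑' a : ℕ, G (p ^ a) ≤ 1 + G p + 5 / 2 * (p : ℝ) ^ (-(3 / 2) : ℝ) := by
    intro p hpp
    have := local_le hκ hpp (fun a => G (p ^ a)) (fun a => h0 _) (by simpa using h1) (hp p hpp)
    simpa using this
  obtain ⟨hs, hsum⟩ := EulerProduct.summable_and_hasSum_smoothNumbers_prod_primesBelow_tsum
    (f := G) h1 (fun {m n} h => hmul m n h) (fun {p} hpp => by
      have := (hloc p hpp).1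
      refine this.congr fun a => ?_
      rw [Real.norm_of_nonneg (h0 _)]) (N + 1)
  -- the finite sum is at most the sum over smooth numbers
  have h2 : ∑ m ∈ Icc 1 N, G m ≤ ∏ p ∈ (N + 1).primesBelow, ∑' a : ℕ, G (p ^ a) := by
    let e : {m // m ∈ Icc 1 N} → (N + 1).smoothNumbers := fun m => ⟨m.1, by
      have hm := mem_Icc.1 m.2
      rw [Nat.mem_smoothNumbers']
      intro p hpp hpm
      have := Nat.le_of_dvd (by omega) hpm
      omega⟩
    have he : Function.Injective e := by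
      intro a b h
      have h' : ((e a : (N + 1).smoothNumbers) : ℕ) = ((e b : (N + 1).smoothNumbers) : ℕ) := by rw [h]
      exact Subtype.ext h'
    have h3 := sum_le_hasSum (univ.map ⟨e, he⟩) (fun m _ => h0 _) hsum
    rw [sum_map] at h3
    refine le_trans (le_of_eq ?_) h3
    rw [← sum_coe_sort (Icc 1 N)]
    rfl
  have hset : (N + 1).primesBelow = PP N := by
    ext p
    rw [Nat.mem_primesBelow, mem_filter, mem_Icc]
    constructor
    · rintro ⟨h, h'⟩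
      exact ⟨⟨h'.one_lt.le, by omega⟩, h'⟩
    · rintro ⟨h, h'⟩
      exact ⟨by omega, h'⟩
  rw [hset] at h2
  refine h2.trans ?_
  have h4 : ∏ p ∈ PP N, ∑' a : ℕ, G (p ^ a) ≤
      ∏ p ∈ PP N, Real.exp (G p + 5 / 2 * (p : ℝ) ^ (-(3 / 2) : ℝ)) := by
    apply prod_le_prod
    · intro p _
      exact tsum_nonneg fun a => h0 _
    · intro p hpp
      refine ((hloc p (mem_filter.1 hpp).2).2).trans ?_
      have := Real.add_one_le_exp (G p + 5 / 2 * (p : ℝ) ^ (-(3 / 2) : ℝ))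
      linarith
  refine h4.trans ?_
  rw [← Real.exp_sum, Real.exp_le_exp, sum_add_distrib, ← mul_sum]
  have h5 : ∑ p ∈ PP N, (p : ℝ) ^ (-(3 / 2) : ℝ) ≤ Z :=
    summable_Z.sum_le_tsum _ (fun n _ => by positivity)
  linarith

end Pool.Agent.D0H54.PV
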