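import Pool.Agent.D0H54.PV.Rat

set_option autoImplicit false

/-! Multiplicative functions do not often take values near a set with logarithmic counting function (helper54). -/

namespace Pool.Agent.D0H54.PV

open Finset Classical Filter
open Pool.Agent.N733.TG (LM)

/-- a set with a bounded number of elements in all intervals `[N, 2 N]` -/
lemma log_count (B : Set ℕ) (K N₀ : ℕ) (h : ∀ N : ℕ, N₀ ≤ N → {s : ℕ | N ≤ s ∧ s ≤ 2 * N ∧ s ∈ B}.ncard ≤ K) :
    ∃ K' : ℝ, 0 ≤ K' ∧ ∀ X : ℕ, 2 ≤ X → ({s : ℕ | s ≤ X ∧ s ∈ B}.ncard : ℝ) ≤ K' * Real.log X := by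
  have hl2 : 0 < Real.log 2 := Real.log_pos (by norm_num)
  refine ⟨((2 ^ N₀ + 1 : ℕ) + 2 * K) / Real.log 2, by positivity, fun X hX => ?_⟩
  have hX0 : X ≠ 0 := by omega
  have hsub : {s : ℕ | s ≤ X ∧ s ∈ B} ⊆ (Set.Iic (2 ^ N₀) : Set ℕ) ∪
      ⋃ i ∈ range (Nat.log 2 X + 1), {s : ℕ | s ∈ {s : ℕ | 2 ^ i ≤ s ∧ s ≤ 2 * 2 ^ i ∧ s ∈ B} ∧ N₀ ≤ i} := by
    rintro s ⟨h1, h2⟩
    by_cases hs : s ≤ 2 ^ N₀
    · exact Or.inl hs
    · right
      rw [Set.mem_iUnion₂]
      have hs0 : s ≠ 0 := by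
        intro h0
        rw [h0] at hs
        exact hs (Nat.zero_le _)
      refine ⟨Nat.log 2 s, ?_, ⟨Nat.pow_log_le_self 2 hs0, ?_, h2⟩, ?_⟩
      · rw [mem_range, Nat.lt_succ_iff]
        exact Nat.log_mono_right h1
      · have := Nat.lt_pow_succ_log_self (b := 2) (by norm_num) s
        rw [pow_succ] at this
        omega
      · exact Nat.le_log_of_pow_le (by norm_num) (by omega)
  have hfinI : ∀ i, {s : ℕ | s ∈ {s : ℕ | 2 ^ i ≤ s ∧ s ≤ 2 * 2 ^ i ∧ s ∈ B} ∧ N₀ ≤ i}.Finite := by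
    intro i
    apply (Set.finite_Iic (2 * 2 ^ i)).subset
    rintro s ⟨⟨_, h1, _⟩, _⟩
    exact h1
  have hfin : ((Set.Iic (2 ^ N₀) : Set ℕ) ∪
      ⋃ i ∈ range (Nat.log 2 X + 1), {s : ℕ | s ∈ {s : ℕ | 2 ^ i ≤ s ∧ s ≤ 2 * 2 ^ i ∧ s ∈ B} ∧ N₀ ≤ i}).Finite := by
    refine (Set.finite_Iic _).union ?_
    exact Set.Finite.biUnion (range (Nat.log 2 X + 1)).finite_toSet fun i _ => hfinI i
  have h1 : {s : ℕ | s ≤ X ∧ s ∈ B}.ncard ≤ (2 ^ N₀ + 1) + (Nat.log 2 X + 1) * K := by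
    refine (Set.ncard_le_ncard hsub hfin).trans ((Set.ncard_union_le _ _).trans ?_)
    refine Nat.add_le_add ?_ ?_
    · have : (Set.Iic (2 ^ N₀) : Set ℕ) = ((range (2 ^ N₀ + 1) : Finset ℕ) : Set ℕ) := by
        ext s
        rw [Finset.mem_coe, mem_range, Nat.lt_succ_iff]
        rfl
      rw [this, Set.ncard_coe_finset, card_range]
    · refine (Finset.set_ncard_biUnion_le _ _).trans ?_
      refine (sum_le_sum (g := fun _ => K) fun i _ => ?_).trans ?_
      · by_cases hi : N₀ ≤ i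
        · refine le_trans (Set.ncard_le_ncard ?_ ?_) (h (2 ^ i) (hi.trans (Nat.lt_two_pow_self (n := i)).le))
          · rintro s ⟨h1, _⟩
            exact h1
          · apply (Set.finite_Iic (2 * 2 ^ i)).subset
            rintro s ⟨_, h1, _⟩
            exact h1
        · have : {s : ℕ | s ∈ {s : ℕ | 2 ^ i ≤ s ∧ s ≤ 2 * 2 ^ i ∧ s ∈ B} ∧ N₀ ≤ i} = ∅ := by
            ext s
            simp only [Set.mem_ofPred_eq, Set.mem_empty_iff_false, iff_false]
            rintro ⟨_, h2⟩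
            exact hi h2
          rw [this, Set.ncard_empty]
          exact Nat.zero_le _
      · rw [sum_const, card_range, smul_eq_mul]
  have h2 : ((Nat.log 2 X : ℕ) : ℝ) ≤ Real.log X / Real.log 2 := by
    rw [le_div_iff₀ hl2, ← Real.log_pow]
    apply Real.log_le_log (by positivity)
    exact_mod_cast Nat.pow_log_le_self 2 hX0
  have h3 : 1 ≤ Real.log X / Real.log 2 := by
    rw [le_div_iff₀ hl2, one_mul]
    apply Real.log_le_log (by norm_num)
    exact_mod_cast hX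
  have h4 : ({s : ℕ | s ≤ X ∧ s ∈ B}.ncard : ℝ) ≤ ((2 ^ N₀ + 1 : ℕ) : ℝ) + ((Nat.log 2 X : ℕ) + 1) * K := by
    exact_mod_cast h1
  have hK0 : (0 : ℝ) ≤ K := Nat.cast_nonneg K
  have hP0 : (0 : ℝ) ≤ ((2 ^ N₀ + 1 : ℕ) : ℝ) := Nat.cast_nonneg _
  calc ({s : ℕ | s ≤ X ∧ s ∈ B}.ncard : ℝ) ≤ ((2 ^ N₀ + 1 : ℕ) : ℝ) + ((Nat.log 2 X : ℕ) + 1) * K := h4
    _ ≤ ((2 ^ N₀ + 1 : ℕ) : ℝ) * (Real.log X / Real.log 2) + (2 * (Real.log X / Real.log 2)) * K := by
        have e1 : ((2 ^ N₀ + 1 : ℕ) : ℝ) ≤ ((2 ^ N₀ + 1 : ℕ) : ℝ) * (Real.log X / Real.log 2) := by nlinarith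
        have e2 : (((Nat.log 2 X : ℕ) : ℝ) + 1) * K ≤ (2 * (Real.log X / Real.log 2)) * K := by
          apply mul_le_mul_of_nonneg_right _ hK0
          linarith
        linarith
    _ = _ := by
        push_cast
        ring

/-- The values `f u`, `u ≤ N`, of a multiplicative function of the class avoid a neighbourhood of radius `exp (c₂ R)` of a
set with logarithmic counting function for all but `N exp (- c R)` numbers `u ≤ N`, `R = log N logloglog N / loglog N`. -/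
theorem near_pop {f : ℕ → ℕ} (hf : LM f) {c c₂ : ℝ} (hc : 0 ≤ c) (hc₂ : 0 ≤ c₂) (hcc : c + c₂ < 1) (B : Set ℕ) (K : ℝ)
    (hK : 0 ≤ K) (hB : ∀ X : ℕ, 2 ≤ X → ({s : ℕ | s ≤ X ∧ s ∈ B}.ncard : ℝ) ≤ K * Real.log X) :
    ∃ N₀ : ℕ, ∀ N : ℕ, N₀ ≤ N →
      ({u : ℕ | 1 ≤ u ∧ u ≤ N ∧ ∃ s ∈ B, |(s : ℝ) - f u| ≤ Real.exp (c₂ * rate N)}.ncard : ℝ) ≤
        N * Real.exp (-(c * rate N)) := by
  obtain ⟨c₁, hc₁⟩ : ∃ c₁ : ℝ, c₁ = (1 + c + c₂) / 2 := ⟨_, rfl⟩
  have hc₁1 : c₁ < 1 := by linarith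
  obtain ⟨δ, hδ⟩ : ∃ δ : ℝ, δ = (1 - c - c₂) / 2 := ⟨_, rfl⟩
  have hδ0 : 0 < δ := by linarith
  obtain ⟨N₁, hN₁⟩ := pop hf hc₁1
  obtain ⟨A, D, hAD⟩ := hf.growth
  obtain ⟨D₂, hD₂⟩ : ∃ D₂ : ℕ, D₂ = (A + 3) + (D + 1) := ⟨_, rfl⟩
  obtain ⟨R, hR⟩ : ∃ R : ℝ, R = Real.log (3 * K * D₂ + 1) := ⟨_, rfl⟩
  have hlog : Tendsto (fun N : ℕ => Real.log (Real.log (N : ℝ))) atTop atTop :=
    Real.tendsto_log_atTop.comp (Real.tendsto_log_atTop.comp tendsto_natCast_atTop_atTop)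
  obtain ⟨N₂, hN₂⟩ := eventually_atTop.1 (hlog.eventually (eventually_y2 hδ0 0 1 R))
  refine ⟨max (max N₁ N₂) 3, fun N hN => ?_⟩
  have hN3 : 3 ≤ N := le_trans (le_max_right _ _) hN
  have hNN₁ : N₁ ≤ N := le_trans (le_trans (le_max_left _ _) (le_max_left _ _)) hN
  have hNN₂ : N₂ ≤ N := le_trans (le_trans (le_max_right _ _) (le_max_left _ _)) hN
  obtain ⟨y1, y2, y3, y4⟩ := hN₂ N hNN₂
  have hpop := hN₁ N hNN₁
  have hN0 : (0 : ℝ) < N := by
    have : 0 < N := by omega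
    exact_mod_cast this
  obtain ⟨L, hL⟩ : ∃ L : ℝ, L = Real.log N := ⟨_, rfl⟩
  unfold rate
  rw [← hL] at y1 y2 y3 y4 hpop ⊢
  obtain ⟨y, hy⟩ : ∃ y : ℝ, y = Real.log L := ⟨_, rfl⟩
  rw [← hy] at y1 y2 y3 y4 hpop ⊢
  have hy0 : 0 < y := by linarith
  have hL0 : 0 < L := by
    by_contra hneg
    have hL1 : L = 0 := by
      have : 0 ≤ L := by
        rw [hL]
        exact Real.log_natCast_nonneg N
      linarith
    rw [hL1, Real.log_zero] at hy
    linarith
  have hLy : L = Real.exp y := by rw [hy, Real.exp_log hL0]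
  have hL1 : 1 ≤ L := by
    rw [hLy]
    exact Real.one_le_exp hy0.le
  obtain ⟨E, hE⟩ : ∃ E : ℝ, E = L * Real.log y / y := ⟨_, rfl⟩
  rw [← hE] at hpop ⊢
  rw [← hLy, ← hE] at y4
  have hy1 : 1 ≤ y := by linarith
  have hE0 : 0 ≤ E := by
    rw [hE]
    have : 0 ≤ Real.log y := Real.log_nonneg hy1
    positivity
  have hEL : E ≤ L := by
    rw [hE, div_le_iff₀ hy0]
    apply mul_le_mul_of_nonneg_left _ hL0.le
    exact (Real.log_le_sub_one_of_pos hy0).trans (by linarith)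
  -- the radius
  obtain ⟨ρ, hρ⟩ : ∃ ρ : ℝ, ρ = Real.exp (c₂ * E) := ⟨_, rfl⟩
  rw [← hρ]
  have hρ1 : 1 ≤ ρ := by
    rw [hρ]
    exact Real.one_le_exp (by positivity)
  have hρN : ρ ≤ N := by
    rw [hρ, ← Real.exp_log hN0, ← hL]
    apply Real.exp_le_exp.2
    have : c₂ * E ≤ 1 * L := mul_le_mul (by linarith) hEL hE0 (by norm_num)
    linarith
  obtain ⟨r, hr⟩ : ∃ r : ℕ, r = ⌊ρ⌋₊ := ⟨_, rfl⟩
  have hrρ : (r : ℝ) ≤ ρ := by
    rw [hr]
    exact Nat.floor_le (by linarith)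
  -- the exceptional set and its values
  obtain ⟨S, hS⟩ : ∃ S : Finset ℕ, S = (Icc 1 N).filter (fun u => ∃ s ∈ B, |(s : ℝ) - f u| ≤ ρ) := ⟨_, rfl⟩
  have hset : {u : ℕ | 1 ≤ u ∧ u ≤ N ∧ ∃ s ∈ B, |(s : ℝ) - f u| ≤ ρ} = (S : Set ℕ) := by
    ext u
    rw [hS, Finset.mem_coe, mem_filter, mem_Icc, Set.mem_ofPred_eq, and_assoc]
  rw [hset, Set.ncard_coe_finset]
  obtain ⟨X, hX⟩ : ∃ X : ℕ, X = (A + 3) * N ^ (D + 1) := ⟨_, rfl⟩
  have hNpos : 0 < N := by omega
  have hX2 : 2 ≤ X := by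
    rw [hX]
    have : 1 ≤ N ^ (D + 1) := Nat.one_le_pow _ _ hNpos
    nlinarith
  have hfinB : {s : ℕ | s ≤ X ∧ s ∈ B}.Finite := (Set.finite_Iic X).subset fun s hs => hs.1
  obtain ⟨BX, hBX⟩ : ∃ BX : Finset ℕ, BX = hfinB.toFinset := ⟨_, rfl⟩
  have hBXc : (BX.card : ℝ) ≤ K * (D₂ * L) := by
    have h1 := hB X hX2
    rw [Set.ncard_eq_toFinset_card _ hfinB, ← hBX] at h1
    refine h1.trans ?_
    apply mul_le_mul_of_nonneg_left _ hK
    rw [hX]
    push_cast
    rw [Real.log_mul (by positivity) (by positivity), Real.log_pow, ← hL, hD₂]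
    push_cast
    have e2 : Real.log ((A : ℝ) + 3) ≤ (A : ℝ) + 3 :=
      (Real.log_le_sub_one_of_pos (by positivity)).trans (by linarith)
    nlinarith
  have hW : ((S.image f).card : ℝ) ≤ (BX.card : ℝ) * (3 * ρ) := by
    have hsub : S.image f ⊆ BX.biUnion (fun s => Icc (s - r) (s + r)) := by
      intro w hw
      obtain ⟨u, hu, rfl⟩ := mem_image.1 hw
      rw [hS, mem_filter, mem_Icc] at hu
      obtain ⟨⟨hu1, hu2⟩, s, hs, hsu⟩ := hu
      rw [mem_biUnion]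
      have h1 : f u ≤ (A + 2) * N ^ D := by
        calc f u ≤ A * u ^ D := hAD u hu1
          _ ≤ (A + 2) * N ^ D := Nat.mul_le_mul (by omega) (Nat.pow_le_pow_left hu2 _)
      rw [abs_le] at hsu
      have h2 : s ≤ f u + r := by
        have h3 : (s : ℝ) ≤ f u + ρ := by linarith
        have h4 : s - f u ≤ r := by
          rw [hr]
          apply Nat.le_floor
          by_cases h5 : f u ≤ s
          · rw [Nat.cast_sub h5]
            linarith
          · rw [Nat.sub_eq_zero_of_le (by omega)]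
            push_cast
            linarith
        omega
      have h3 : f u ≤ s + r := by
        have h4 : f u - s ≤ r := by
          rw [hr]
          apply Nat.le_floor
          by_cases h5 : s ≤ f u
          · rw [Nat.cast_sub h5]
            linarith
          · rw [Nat.sub_eq_zero_of_le (by omega)]
            push_cast
            linarith
        omega
      refine ⟨s, ?_, ?_⟩
      · rw [hBX, Set.Finite.mem_toFinset]
        refine ⟨?_, hs⟩
        have h5 : r ≤ N := by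
          have : (r : ℝ) ≤ N := hrρ.trans hρN
          exact_mod_cast this
        calc s ≤ (A + 2) * N ^ D + N := by omega
          _ ≤ (A + 2) * N ^ (D + 1) + N ^ (D + 1) := by
              refine Nat.add_le_add (Nat.mul_le_mul_left _ (Nat.pow_le_pow_right hNpos (by omega))) ?_
              calc N = N ^ 1 := (pow_one N).symm
                _ ≤ N ^ (D + 1) := Nat.pow_le_pow_right hNpos (by omega)
          _ = X := by
              rw [hX]
              ring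
      · rw [mem_Icc]
        omega
    have h1 := (card_le_card hsub).trans card_biUnion_le
    calc ((S.image f).card : ℝ) ≤ ((∑ s ∈ BX, (Icc (s - r) (s + r)).card : ℕ) : ℝ) := by exact_mod_cast h1
      _ ≤ ∑ _s ∈ BX, (3 * ρ) := by
          rw [Nat.cast_sum]
          apply sum_le_sum
          intro s _
          rw [Nat.card_Icc]
          have h2 : ((s + r + 1 - (s - r) : ℕ) : ℝ) ≤ ((2 * r + 1 : ℕ) : ℝ) := by
            exact_mod_cast (by omega : s + r + 1 - (s - r) ≤ 2 * r + 1)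
          refine h2.trans ?_
          push_cast
          linarith
      _ = (BX.card : ℝ) * (3 * ρ) := by rw [sum_const, nsmul_eq_mul]
  have hSc : (S.card : ℝ) ≤ ((S.image f).card : ℝ) * (N * Real.exp (-(c₁ * E))) := by
    rw [card_eq_sum_card_image f S]
    push_cast
    rw [← nsmul_eq_mul, ← sum_const]
    apply sum_le_sum
    intro w _
    refine le_trans ?_ (hpop w)
    have : S.filter (fun m => f m = w) ⊆ (Icc 1 N).filter (fun m => f m = w) := by
      intro m hm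
      rw [mem_filter, hS, mem_filter] at hm
      rw [mem_filter]
      exact ⟨hm.1.1, hm.2⟩
    exact_mod_cast card_le_card this
  have h2 : 3 * K * D₂ * L ≤ Real.exp (δ * E) := by
    refine le_trans ?_ (Real.exp_le_exp.2 y4)
    rw [Real.exp_add, hR, Real.exp_log (by positivity), Real.exp_nat_mul, ← hLy, pow_one]
    nlinarith
  calc (S.card : ℝ) ≤ ((S.image f).card : ℝ) * (N * Real.exp (-(c₁ * E))) := hSc
    _ ≤ ((K * (D₂ * L)) * (3 * ρ)) * (N * Real.exp (-(c₁ * E))) := by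
        apply mul_le_mul_of_nonneg_right _ (by positivity)
        refine hW.trans ?_
        apply mul_le_mul_of_nonneg_right hBXc (by linarith)
    _ = (3 * K * D₂ * L) * (Real.exp (c₂ * E) * (N * Real.exp (-(c₁ * E)))) := by
        rw [hρ]
        ring
    _ ≤ Real.exp (δ * E) * (Real.exp (c₂ * E) * (N * Real.exp (-(c₁ * E)))) := by
        apply mul_le_mul_of_nonneg_right h2 (by positivity)
    _ = N * Real.exp (-(c * E)) := by
        have : Real.exp (δ * E) * (Real.exp (c₂ * E) * (N * Real.exp (-(c₁ * E)))) =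
            N * (Real.exp (δ * E) * Real.exp (c₂ * E) * Real.exp (-(c₁ * E))) := by ring
        rw [this, ← Real.exp_add, ← Real.exp_add, hδ, hc₁]
        congr 2
        ring

end Pool.Agent.D0H54.PV
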