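import Pool.Agent.R424.TG.Few
import Pool.Agent.D0H54.PV.Beta

set_option autoImplicit false

/-! One exceptional set for all families over a countable field (helper54). -/

namespace Pool.Agent.D0H54.PV

open MvPolynomial Pool.Agent.R424.TG Filter
open Pool.Agent.Y152.RP.FamM (NoAtypical)

instance countable_poly (K : Type) [CommSemiring K] [Countable K] : Countable (Polynomial K) := by
  rw [← Cardinal.mk_le_aleph0_iff]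
  refine Polynomial.cardinalMk_le_max.trans ?_
  rw [max_le_iff]
  exact ⟨Cardinal.mk_le_aleph0_iff.2 inferInstance, le_rfl⟩

instance countable_mvpoly (σ R : Type) [Countable σ] [CommSemiring R] [Countable R] :
    Countable (MvPolynomial σ R) := by
  rw [← Cardinal.mk_le_aleph0_iff]
  refine MvPolynomial.cardinalMk_le_max.trans ?_
  rw [max_le_iff, max_le_iff]
  exact ⟨⟨Cardinal.mk_le_aleph0_iff.2 inferInstance, Cardinal.mk_le_aleph0_iff.2 inferInstance⟩, le_rfl⟩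

/-- the finite sets of numbers algebraic over `K` -/
abbrev AlgSets (K : Subfield ℂ) : Type := {Γ : Finset ℂ // ∀ γ ∈ Γ, IsAlgebraic K γ}

instance countable_algSets (K : Subfield ℂ) [Countable K] : Countable (AlgSets K) := by
  have h1 : {x : ℂ | IsAlgebraic K x}.Countable := Algebraic.countable K ℂ
  have h2 := Set.countable_setOf_finite_subset h1
  have h3 : Countable {t : Set ℂ | t.Finite ∧ t ⊆ {x : ℂ | IsAlgebraic K x}} := h2.to_subtype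
  refine Function.Injective.countable (f := fun Γ : AlgSets K =>
    (⟨(Γ.1 : Set ℂ), Γ.1.finite_toSet, fun γ hγ => Γ.2 γ hγ⟩ :
      {t : Set ℂ | t.Finite ∧ t ⊆ {x : ℂ | IsAlgebraic K x}})) ?_
  intro Γ Γ' h
  apply Subtype.ext
  have h4 := congrArg Subtype.val h
  exact Finset.coe_injective h4

/-- the index set of all the families, with the sets `Γ` and the exponents `a` -/
abbrev Idx (K : Subfield ℂ) : Type :=
  Σ q : ℕ × ℕ × ℕ × ℕ × ℕ,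
    (Fin q.1 → MvPolynomial ((Fin q.2.1 ⊕ Fin q.2.2.1) ⊕ Fin q.2.2.2.1) (Polynomial K)) × AlgSets K × ℕ

instance countable_idx (K : Subfield ℂ) [Countable K] : Countable (Idx K) := by
  have h : ∀ q : ℕ × ℕ × ℕ × ℕ × ℕ, Countable
      ((Fin q.1 → MvPolynomial ((Fin q.2.1 ⊕ Fin q.2.2.1) ⊕ Fin q.2.2.2.1) (Polynomial K)) × AlgSets K × ℕ) := by
    intro q
    infer_instance
  infer_instance

/-- the member `X_t` has an atypical intersection -/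
def AtyP (K : Subfield ℂ) {κ : Type} {n k N : ℕ} (m : ℕ)
    (P : κ → MvPolynomial ((Fin n ⊕ Fin k) ⊕ Fin N) (Polynomial K)) (Γ : Finset ℂ) (t : ℂ) : Prop :=
  ¬ NoAtypical (algebraMap (Algebra.adjoin ℤ (Γ : Set ℂ)) ℂ) K m (member t P)

/-- the polynomials and denominators of size at most `u ^ a` -/
def Adm (a u : ℕ) (h : Polynomial ℤ) (v : ℕ) : Prop :=
  1 ≤ v ∧ v ≤ u ^ a ∧ 1 ≤ h.natDegree ∧ h.natDegree ≤ a ∧ ∀ i, |h.coeff i| ≤ (u : ℤ) ^ a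

theorem one_set (K : Subfield ℂ) [Countable K] (f : ℕ → ℕ) (β : ℕ → ℕ → ℝ) (hβ0 : ∀ j X, 0 ≤ β j X)
    (hβ1 : ∀ j, ∀ᶠ X in atTop, ∀ i ∈ Finset.range (j + 1), β j X ≤ β i X)
    (hβ2 : ∀ j : ℕ, ∀ᶠ X in atTop, ((j : ℝ) + 1) * β (j + 1) X ≤ β j X)
    (hfew : ∀ C s a j : ℕ, ∃ N₀ : ℕ, ∀ N : ℕ, N₀ ≤ N → ∀ v : ℕ, 1 ≤ v → v ≤ N ^ a → ∀ h : Polynomial ℤ,
      1 ≤ h.natDegree → h.natDegree ≤ a → (∀ i, |h.coeff i| ≤ (N : ℤ) ^ a) → ∀ Bad : ℚ → Prop,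
      (∀ B v' : ℕ, 2 ≤ B → v' ≤ B → ∀ T : Finset ℚ,
        (∀ t ∈ T, t.den = v' ∧ |t.num| ≤ B ∧ Bad t) → (T.card : ℝ) ≤ C * Real.log B ^ s) →
      ({u : ℕ | 1 ≤ u ∧ u ≤ N ∧ Bad (((h.eval (f u : ℤ) : ℤ) : ℚ) / v)}.ncard : ℝ) ≤ β j N) :
    ∃ E : ℕ → Polynomial ℤ → ℕ → Prop,
      (∀ j, ∃ X₀ : ℕ, ∀ X : ℕ, X₀ ≤ X → ∀ (h : Polynomial ℤ) (v : ℕ),
        ({u : ℕ | 1 ≤ u ∧ u ≤ X ∧ E u h v}.ncard : ℝ) ≤ β j X) ∧
      ∀ (r n k N m : ℕ) (P : Fin r → MvPolynomial ((Fin n ⊕ Fin k) ⊕ Fin N) (Polynomial K)) (D : Finset ℂ),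
        (∀ α ∈ D, IsAlgebraic ℚ α) → Generic m 1 P D → ∀ Γ : Finset ℂ, (∀ γ ∈ Γ, IsAlgebraic K γ) → ∀ a : ℕ,
        ∃ u₀ : ℕ, ∀ u : ℕ, u₀ ≤ u → ∀ (h : Polynomial ℤ) (v : ℕ), Adm a u h v → ¬ E u h v →
          ¬ AtyP K m P Γ (((h.eval (f u : ℤ) : ℤ) : ℂ) / v) := by
  classical
  obtain ⟨E, hE1, hE2⟩ := diag (ι := Idx K) (Θ := Polynomial ℤ × ℕ) β hβ0 hβ1 hβ2
    (fun i u θ => (∃ D : Finset ℂ, (∀ α ∈ D, IsAlgebraic ℚ α) ∧ Generic i.1.2.2.2.2 1 i.2.1 D) ∧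
      Adm i.2.2.2 u θ.1 θ.2 ∧ AtyP K i.1.2.2.2.2 i.2.1 i.2.2.1.1 (((θ.1.eval (f u : ℤ) : ℤ) : ℂ) / θ.2)) (by
    rintro ⟨⟨r, n, k, N, m⟩, P, ⟨Γ, hΓ⟩, a⟩ j
    by_cases hD : ∃ D : Finset ℂ, (∀ α ∈ D, IsAlgebraic ℚ α) ∧ Generic m 1 P D
    · obtain ⟨D, hD1, hD2⟩ := hD
      obtain ⟨C, s, hCs⟩ := fewT K (Fin r) n k N m P D hD1 Γ hΓ hD2
      obtain ⟨N₀, hN₀⟩ := hfew C s a j
      refine ⟨N₀, fun X hX θ => ?_⟩
      obtain ⟨h, v⟩ := θ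
      by_cases hadm : Adm a X h v
      · obtain ⟨a1, a2, a3, a4, a5⟩ := hadm
        have h1 := hN₀ X hX v a1 a2 h a3 a4 a5 (fun t : ℚ => AtyP K m P Γ (t : ℂ)) (fun B v' hB hv' T hT =>
          hCs B v' hB hv' T hT)
        refine le_trans ?_ h1
        have hfin : {u : ℕ | 1 ≤ u ∧ u ≤ X ∧ AtyP K m P Γ (((((h.eval (f u : ℤ) : ℤ) : ℚ) / v : ℚ) : ℂ))}.Finite := by
          apply (Set.finite_Icc 1 X).subset
          intro u hu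
          exact ⟨hu.1, hu.2.1⟩
        have hsub : {u : ℕ | 1 ≤ u ∧ u ≤ X ∧ ((∃ D : Finset ℂ, (∀ α ∈ D, IsAlgebraic ℚ α) ∧ Generic m 1 P D) ∧
            Adm a u h v ∧ AtyP K m P Γ (((h.eval (f u : ℤ) : ℤ) : ℂ) / v))} ⊆
            {u : ℕ | 1 ≤ u ∧ u ≤ X ∧ AtyP K m P Γ (((((h.eval (f u : ℤ) : ℤ) : ℚ) / v : ℚ) : ℂ))} := by
          rintro u ⟨b1, b2, -, -, b3⟩
          refine ⟨b1, b2, ?_⟩
          push_cast
          exact b3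
        exact_mod_cast Set.ncard_le_ncard hsub hfin
      · have h0 : {u : ℕ | 1 ≤ u ∧ u ≤ X ∧ ((∃ D : Finset ℂ, (∀ α ∈ D, IsAlgebraic ℚ α) ∧ Generic m 1 P D) ∧
            Adm a u h v ∧ AtyP K m P Γ (((h.eval (f u : ℤ) : ℤ) : ℂ) / v))} = ∅ := by
          rw [Set.eq_empty_iff_forall_notMem]
          rintro u ⟨b1, b2, -, ⟨c1, c2, c3, c4, c5⟩, -⟩
          apply hadm
          refine ⟨c1, c2.trans (Nat.pow_le_pow_left b2 a), c3, c4, fun i => (c5 i).trans ?_⟩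
          have : u ^ a ≤ X ^ a := Nat.pow_le_pow_left b2 a
          exact_mod_cast this
        refine le_trans (le_of_eq ?_) (hβ0 j X)
        show (({u : ℕ | 1 ≤ u ∧ u ≤ X ∧ ((∃ D : Finset ℂ, (∀ α ∈ D, IsAlgebraic ℚ α) ∧ Generic m 1 P D) ∧
            Adm a u h v ∧ AtyP K m P Γ (((h.eval (f u : ℤ) : ℤ) : ℂ) / v))}.ncard : ℕ) : ℝ) = 0
        rw [h0, Set.ncard_empty, Nat.cast_zero]
    · refine ⟨0, fun X _ θ => ?_⟩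
      have h0 : {u : ℕ | 1 ≤ u ∧ u ≤ X ∧ ((∃ D : Finset ℂ, (∀ α ∈ D, IsAlgebraic ℚ α) ∧ Generic m 1 P D) ∧
          Adm a u θ.1 θ.2 ∧ AtyP K m P Γ (((θ.1.eval (f u : ℤ) : ℤ) : ℂ) / θ.2))} = ∅ := by
        rw [Set.eq_empty_iff_forall_notMem]
        rintro u ⟨-, -, b, -⟩
        exact hD b
      refine le_trans (le_of_eq ?_) (hβ0 j X)
      show (({u : ℕ | 1 ≤ u ∧ u ≤ X ∧ ((∃ D : Finset ℂ, (∀ α ∈ D, IsAlgebraic ℚ α) ∧ Generic m 1 P D) ∧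
          Adm a u θ.1 θ.2 ∧ AtyP K m P Γ (((θ.1.eval (f u : ℤ) : ℤ) : ℂ) / θ.2))}.ncard : ℕ) : ℝ) = 0
      rw [h0, Set.ncard_empty, Nat.cast_zero])
  refine ⟨fun u h v => E u (h, v), fun j => ?_, ?_⟩
  · obtain ⟨X₀, hX₀⟩ := hE1 j
    exact ⟨X₀, fun X hX h v => hX₀ X hX (h, v)⟩
  · intro r n k N m P D hD hgen Γ hΓ a
    obtain ⟨u₀, hu₀⟩ := hE2 ⟨⟨r, n, k, N, m⟩, P, ⟨Γ, hΓ⟩, a⟩
    refine ⟨u₀, fun u hu h v hadm hnE hA => hnE ?_⟩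
    exact hu₀ u hu (h, v) ⟨⟨D, hD, hgen⟩, hadm, hA⟩

end Pool.Agent.D0H54.PV
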