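import Pool.Agent.D0H54.PV.Count
import Pool.Agent.Erdos456.Mertens

set_option autoImplicit false

/-! Popular values of multiplicative functions (helper54). -/

namespace Pool.Agent.D0H54.PV

open Finset Classical Filter
open Pool.Agent.N733.TG (LM)

/-- the conditions on `y = log log N` -/
lemma eventually_y {c c' : ℝ} (hc0 : 0 ≤ c) (hcc : c < c') (hc1 : c' < 1) (C C₂ K : ℝ) (hC : 0 ≤ C) :
    ∀ᶠ y : ℝ in atTop, 3 ≤ y ∧ 1 ≤ Real.log y ∧ c' * Real.log y / y ≤ 1 / 4 ∧
      y ^ c' * (Real.log y + C₂) + K ≤ y / 2 ∧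
      C + C * Real.exp (y / 2) ≤ (c' - c) * (Real.exp y * Real.log y / y) := by
  have h1 : Tendsto (fun y : ℝ => Real.log y / y ^ (1 - c')) atTop (nhds 0) :=
    (isLittleO_log_rpow_atTop (by linarith)).tendsto_div_nhds_zero
  have h2 : Tendsto (fun y : ℝ => y ^ (-(1 - c'))) atTop (nhds 0) :=
    tendsto_rpow_neg_atTop (by linarith)
  have h3 : Tendsto (fun y : ℝ => K * y⁻¹) atTop (nhds 0) := by
    simpa using tendsto_inv_atTop_zero.const_mul K
  have h4 : Tendsto (fun y : ℝ => Real.log y / y ^ (1 - c') + C₂ * y ^ (-(1 - c')) + K * y⁻¹)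
      atTop (nhds 0) := by
    simpa using (h1.add (h2.const_mul C₂)).add h3
  have h5 : Tendsto (fun y : ℝ => Real.log y / y) atTop (nhds 0) := by
    have := (isLittleO_log_rpow_atTop (r := 1) one_pos).tendsto_div_nhds_zero
    simpa using this
  have h6 : Tendsto (fun y : ℝ => c' * (Real.log y / y)) atTop (nhds 0) := by
    simpa using h5.const_mul c'
  filter_upwards [eventually_ge_atTop 3, Real.tendsto_log_atTop.eventually_ge_atTop 1,
    h6.eventually (gt_mem_nhds (show (0 : ℝ) < 1 / 4 by norm_num)),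
    h4.eventually (gt_mem_nhds (show (0 : ℝ) < 1 / 2 by norm_num)),
    eventually_ge_atTop (16 * C / (c' - c))] with y y1 y2 y3 y4 y5
  have hy0 : 0 < y := by linarith
  refine ⟨y1, y2, by rw [mul_div_assoc]; exact y3.le, ?_, ?_⟩
  · have e1 : y ^ c' * (Real.log y + C₂) + K =
        (Real.log y / y ^ (1 - c') + C₂ * y ^ (-(1 - c')) + K * y⁻¹) * y := by
      have e2 : y ^ c' = y ^ (-(1 - c')) * y := by
        conv_rhs => rw [← Real.rpow_one y, ← Real.rpow_mul hy0.le, one_mul]
        rw [← Real.rpow_add hy0]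
        congr 1
        ring
      rw [e2, div_eq_mul_inv, ← Real.rpow_neg hy0.le]
      field_simp
    rw [e1]
    nlinarith
  · have hd : 0 < c' - c := by linarith
    have e1 : 16 * C ≤ (c' - c) * y := by
      rw [div_le_iff₀ hd] at y5
      linarith
    have e2 := Real.quadratic_le_exp_of_nonneg (show (0 : ℝ) ≤ y / 2 by positivity)
    have e3 : (1 : ℝ) ≤ Real.exp (y / 2) := Real.one_le_exp (by positivity)
    have e4 : Real.exp y = Real.exp (y / 2) * Real.exp (y / 2) := by
      rw [← Real.exp_add]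
      congr 1
      ring
    have e5 : 2 * C * y ≤ (c' - c) * Real.exp (y / 2) := by
      have : y ^ 2 / 8 ≤ Real.exp (y / 2) := by nlinarith
      have h7 : (c' - c) * (y ^ 2 / 8) ≤ (c' - c) * Real.exp (y / 2) :=
        mul_le_mul_of_nonneg_left this hd.le
      nlinarith
    calc C + C * Real.exp (y / 2) ≤ 2 * C * Real.exp (y / 2) := by nlinarith
      _ = (2 * C * y) * Real.exp (y / 2) / y := by field_simp
      _ ≤ ((c' - c) * Real.exp (y / 2)) * Real.exp (y / 2) / y := by gcongr
      _ = (c' - c) * (Real.exp y * 1 / y) := by rw [e4]; ring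
      _ ≤ (c' - c) * (Real.exp y * Real.log y / y) := by gcongr

lemma card_primeFactors_le {w : ℕ} (hw : 1 ≤ w) :
    (w.primeFactors.card : ℝ) * Real.log 2 ≤ Real.log w := by
  have h1 : 2 ^ w.primeFactors.card ≤ w := by
    calc 2 ^ w.primeFactors.card = ∏ p ∈ w.primeFactors, 2 := by rw [prod_const]
      _ ≤ ∏ p ∈ w.primeFactors, p :=
          prod_le_prod' fun p hp => (Nat.prime_of_mem_primeFactors hp).two_le
      _ ≤ w := Nat.le_of_dvd hw (Nat.prod_primeFactors_dvd w)
  have h2 : ((2 : ℝ) ^ w.primeFactors.card) ≤ w := by exact_mod_cast h1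
  have h3 := Real.log_le_log (by positivity) h2
  rwa [Real.log_pow] at h3

lemma om_le {w : ℕ} (hw : 1 ≤ w) {D₁ L : ℝ} (h : Real.log w ≤ D₁ * L) :
    (w.primeFactors.card : ℝ) ≤ 2 * D₁ * L := by
  have e1 := card_primeFactors_le hw
  have e2 : (1 : ℝ) / 2 ≤ Real.log 2 := by
    have := Real.log_two_gt_d9
    linarith
  have e3 : (0 : ℝ) ≤ w.primeFactors.card := Nat.cast_nonneg _
  have e5 : (w.primeFactors.card : ℝ) * (1 / 2) ≤ (w.primeFactors.card : ℝ) * Real.log 2 :=
    mul_le_mul_of_nonneg_left e2 e3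
  linarith

/-- **Popular values.** A value of `f` is taken at most `N exp (- c log N logloglog N / loglog N)`
times on `[1, N]`. -/
theorem pop {f : ℕ → ℕ} (hf : LM f) {c : ℝ} (hc : c < 1) : ∃ N₀ : ℕ, ∀ N : ℕ, N₀ ≤ N → ∀ w : ℕ,
    (((Icc 1 N).filter (fun m => f m = w)).card : ℝ) ≤
      N * Real.exp (-(c * (Real.log N * Real.log (Real.log (Real.log N)) /
        Real.log (Real.log N)))) := by
  obtain ⟨C, hC, hcount⟩ := count_le hf
  obtain ⟨A, D, hAD⟩ := hf.growth
  obtain ⟨C₁, hC₁⟩ := Pool.Agent.Erdos456.Mert.mertens_inv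
  have hC₁0 : 0 ≤ C₁ := (abs_nonneg _).trans (hC₁ 3 le_rfl)
  obtain ⟨c₀, hc₀⟩ : ∃ c₀ : ℝ, c₀ = max c 0 := ⟨_, rfl⟩
  have hc₀0 : 0 ≤ c₀ := by rw [hc₀]; exact le_max_right _ _
  have hc₀c : c ≤ c₀ := by rw [hc₀]; exact le_max_left _ _
  have hc₀1 : c₀ < 1 := by rw [hc₀]; exact max_lt hc one_pos
  obtain ⟨c', hc'⟩ : ∃ c' : ℝ, c' = (c₀ + 1) / 2 := ⟨_, rfl⟩
  have hcc : c₀ < c' := by linarith
  have hc'1 : c' < 1 := by linarith
  have hc'0 : 0 < c' := by linarith
  have hZ := Z_nonneg
  -- log w ≤ D₁ log N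
  obtain ⟨D₁, hD₁⟩ : ∃ D₁ : ℝ, D₁ = (A : ℝ) + D := ⟨_, rfl⟩
  have hD₁0 : 0 ≤ D₁ := by rw [hD₁]; positivity
  have hev := eventually_y hc₀0 hcc hc'1 C (C₁ + 2 * D₁) (5 / 2 * Z) hC
  have hlog : Tendsto (fun N : ℕ => Real.log (Real.log (N : ℝ))) atTop atTop :=
    Real.tendsto_log_atTop.comp (Real.tendsto_log_atTop.comp tendsto_natCast_atTop_atTop)
  obtain ⟨N₀, hN₀⟩ := eventually_atTop.1 (hlog.eventually hev)
  refine ⟨max N₀ 3, fun N hN w => ?_⟩
  obtain ⟨y1, y2, y3, y4, y5⟩ := hN₀ N (le_trans (le_max_left _ _) hN)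
  have hN3 : 3 ≤ N := le_trans (le_max_right _ _) hN
  have hN0 : (0 : ℝ) < N := by
    have : 0 < N := by omega
    exact_mod_cast this
  obtain ⟨L, hL⟩ : ∃ L : ℝ, L = Real.log N := ⟨_, rfl⟩
  rw [← hL] at y1 y2 y3 y4 y5 ⊢
  obtain ⟨y, hy⟩ : ∃ y : ℝ, y = Real.log L := ⟨_, rfl⟩
  rw [← hy] at y1 y2 y3 y4 y5 ⊢
  have hL0 : 0 < L := by
    by_contra hneg
    have hL1 : L = 0 := by
      have : 0 ≤ L := by
        rw [hL]
        exact Real.log_natCast_nonneg N
      linarith
    rw [hL1, Real.log_zero] at hy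
    linarith
  have hLy : L = Real.exp y := by rw [hy, Real.exp_log hL0]
  have hy0 : 0 < y := by linarith
  have hL3 : 3 < L := by
    rw [hLy]
    have := Real.add_one_le_exp y
    linarith
  have hexpand : 0 ≤ L * Real.log y / y := by positivity
  -- reduce to c₀
  refine le_trans ?_ (show (N : ℝ) * Real.exp (-(c₀ * (L * Real.log y / y))) ≤ _ by
    gcongr)
  -- the trivial cases
  by_cases hemp : (Icc 1 N).filter (fun m => f m = w) = ∅
  · rw [hemp, card_empty, Nat.cast_zero]
    positivity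
  obtain ⟨m, hm⟩ := nonempty_iff_ne_empty.2 hemp
  rw [mem_filter, mem_Icc] at hm
  have hw1 : 1 ≤ w := by
    rw [← hm.2]
    exact hf.pos m hm.1.1
  have hwle : w ≤ A * N ^ D := by
    rw [← hm.2]
    exact (hAD m hm.1.1).trans (Nat.mul_le_mul_left _ (Nat.pow_le_pow_left hm.1.2 _))
  have hA1 : 1 ≤ A := by
    rcases Nat.eq_zero_or_pos A with h | h
    · subst h
      omega
    · exact h
  have hlogw : Real.log w ≤ D₁ * L := by
    have e1 : Real.log w ≤ Real.log ((A * N ^ D : ℕ) : ℝ) :=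
      Real.log_le_log (by exact_mod_cast hw1) (by exact_mod_cast hwle)
    push_cast at e1
    rw [Real.log_mul (by positivity) (by positivity), Real.log_pow, ← hL] at e1
    have e2 : Real.log A ≤ A := (Real.log_le_sub_one_of_pos (by positivity)).trans (by linarith)
    have e3 : (A : ℝ) ≤ A * L := by
      have : (0 : ℝ) ≤ A := by positivity
      nlinarith
    rw [hD₁]
    nlinarith
  -- the exponent
  obtain ⟨η, hη⟩ : ∃ η : ℝ, η = c' * Real.log y / y := ⟨_, rfl⟩
  rw [← hη] at y3
  have hη0 : 0 ≤ η := by rw [hη]; positivity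
  have hLη : L ^ η = y ^ c' := by
    rw [hLy, ← Real.exp_mul, Real.rpow_def_of_pos hy0, hη]
    congr 1
    field_simp
  have hκ : 3 / 4 ≤ 1 - η := by linarith
  have hκ1 : 1 - η ≤ 1 := by linarith
  -- the sum over the prime factors
  have hS : ∑ p ∈ w.primeFactors, (p : ℝ) ^ (-(1 - η)) ≤ y ^ c' * (Real.log y + (C₁ + 2 * D₁)) := by
    obtain ⟨x, hx⟩ : ∃ x : ℕ, x = ⌊L⌋₊ := ⟨_, rfl⟩
    have hxL : (x : ℝ) ≤ L := by rw [hx]; exact Nat.floor_le hL0.le
    have hx3 : 3 ≤ x := by
      rw [hx]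
      exact Nat.le_floor (by push_cast; linarith)
    have hx3r : (3 : ℝ) ≤ x := by exact_mod_cast hx3
    rw [← sum_filter_add_sum_filter_not w.primeFactors (fun p => p ≤ x)]
    have s1 : ∑ p ∈ w.primeFactors.filter (fun p => p ≤ x), (p : ℝ) ^ (-(1 - η)) ≤
        y ^ c' * (Real.log y + C₁) := by
      calc ∑ p ∈ w.primeFactors.filter (fun p => p ≤ x), (p : ℝ) ^ (-(1 - η))
          ≤ ∑ p ∈ w.primeFactors.filter (fun p => p ≤ x), L ^ η * (1 / (p : ℝ)) := by
            apply sum_le_sum
            intro p hp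
            rw [mem_filter] at hp
            have hp0 : (0 : ℝ) < p := by
              exact_mod_cast (Nat.prime_of_mem_primeFactors hp.1).pos
            have hpx : (p : ℝ) ≤ L := le_trans (by exact_mod_cast hp.2) hxL
            rw [show -(1 - η) = η + (-1 : ℝ) by ring, Real.rpow_add hp0, Real.rpow_neg_one,
              one_div]
            gcongr
        _ ≤ ∑ p ∈ (Icc 1 x).filter Nat.Prime, L ^ η * (1 / (p : ℝ)) := by
            apply sum_le_sum_of_subset_of_nonneg
            · intro p hp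
              rw [mem_filter] at hp
              have hpp := Nat.prime_of_mem_primeFactors hp.1
              rw [mem_filter, mem_Icc]
              exact ⟨⟨hpp.one_lt.le, hp.2⟩, hpp⟩
            · intros
              positivity
        _ = L ^ η * ∑ p ∈ (Icc 1 x).filter Nat.Prime, (1 / (p : ℝ)) := by rw [mul_sum]
        _ ≤ L ^ η * (Real.log y + C₁) := by
            apply mul_le_mul_of_nonneg_left _ (by positivity)
            have e1 := (abs_le.1 (hC₁ x hx3)).2
            have e2 : Real.log (Real.log x) ≤ Real.log y := by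
              have e3 : Real.log x ≤ y := by
                rw [hy]
                exact Real.log_le_log (by linarith) hxL
              apply Real.log_le_log _ e3
              exact Real.log_pos (by linarith)
            linarith
        _ = y ^ c' * (Real.log y + C₁) := by rw [hLη]
    have s2 : ∑ p ∈ w.primeFactors.filter (fun p => ¬ p ≤ x), (p : ℝ) ^ (-(1 - η)) ≤
        y ^ c' * (2 * D₁) := by
      calc ∑ p ∈ w.primeFactors.filter (fun p => ¬ p ≤ x), (p : ℝ) ^ (-(1 - η))
          ≤ ∑ p ∈ w.primeFactors.filter (fun p => ¬ p ≤ x), L ^ (-(1 - η)) := by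
            apply sum_le_sum
            intro p hp
            rw [mem_filter] at hp
            have hpx : L ≤ p := by
              have e1 : L < x + 1 := by rw [hx]; exact Nat.lt_floor_add_one L
              have e2 : ((x + 1 : ℕ) : ℝ) ≤ p := by
                have : x + 1 ≤ p := by omega
                exact_mod_cast this
              push_cast at e2
              linarith
            exact Real.rpow_le_rpow_of_nonpos hL0 hpx (by linarith)
        _ = ((w.primeFactors.filter (fun p => ¬ p ≤ x)).card : ℝ) * L ^ (-(1 - η)) := by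
            rw [sum_const, nsmul_eq_mul]
        _ ≤ (w.primeFactors.card : ℝ) * L ^ (-(1 - η)) := by
            have e0 : (w.primeFactors.filter (fun p => ¬ p ≤ x)).card ≤ w.primeFactors.card :=
              card_filter_le _ _
            have e1 : ((w.primeFactors.filter (fun p => ¬ p ≤ x)).card : ℝ) ≤
                (w.primeFactors.card : ℝ) := by exact_mod_cast e0
            exact mul_le_mul_of_nonneg_right e1 (by positivity)
        _ ≤ (2 * D₁ * L) * L ^ (-(1 - η)) :=
            mul_le_mul_of_nonneg_right (om_le hw1 hlogw) (Real.rpow_nonneg hL0.le _)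
        _ = y ^ c' * (2 * D₁) := by
            rw [← hLη]
            have e1 : L ^ η = L * L ^ (-(1 - η)) := by
              conv_rhs => rw [← Real.rpow_one L, ← Real.rpow_mul hL0.le, one_mul]
              rw [← Real.rpow_add hL0]
              congr 1
              ring
            rw [e1]
            ring
    calc _ ≤ y ^ c' * (Real.log y + C₁) + y ^ c' * (2 * D₁) := add_le_add s1 s2
      _ = _ := by ring
  have hT : ∑ d ∈ w.divisors, (d : ℝ) ^ (-(1 - η)) ≤ Real.exp (y / 2) := by
    refine (div_sum hκ hw1).trans ?_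
    rw [Real.exp_le_exp]
    linarith
  have h1 := hcount (1 - η) hκ hκ1 N w hw1
  refine h1.trans ?_
  have h2 : (N : ℝ) ^ (1 - η) = N * Real.exp (-(η * L)) := by
    rw [Real.rpow_sub hN0, Real.rpow_one, Real.rpow_def_of_pos hN0, ← hL, Real.exp_neg,
      div_eq_mul_inv, mul_comm L η]
  rw [h2, mul_assoc, ← Real.exp_add]
  apply mul_le_mul_of_nonneg_left _ hN0.le
  rw [Real.exp_le_exp]
  have h3 : C * ∑ d ∈ w.divisors, (d : ℝ) ^ (-(1 - η)) ≤ C * Real.exp (y / 2) :=
    mul_le_mul_of_nonneg_left hT hC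
  have h4 : η * L = c' * (L * Real.log y / y) := by rw [hη]; ring
  rw [← hLy] at y5
  rw [h4]
  nlinarith

end Pool.Agent.D0H54.PV
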