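import Pool.Agent.D0H54.PV.Rat
import Pool.Agent.D0H71.CM.Av

set_option autoImplicit false

/-! Rational numbers whose numerators are values of compositions of multiplicative functions avoid very small sets
(helper54). -/

namespace Pool.Agent.D0H54.PV

open Finset Classical Filter
open Pool.Agent.D0H71.CM (Av)

theorem few_ratC {f : ℕ → ℕ} (hf : Av f) (C s a U : ℕ) :
    ∃ N₀ : ℕ, ∀ N : ℕ, N₀ ≤ N → ∀ v : ℕ, 1 ≤ v → v ≤ N ^ a → ∀ h : Polynomial ℤ,
      1 ≤ h.natDegree → h.natDegree ≤ a → (∀ i, |h.coeff i| ≤ (N : ℤ) ^ a) → ∀ Bad : ℚ → Prop,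
      (∀ B v' : ℕ, 2 ≤ B → v' ≤ B → ∀ T : Finset ℚ,
        (∀ t ∈ T, t.den = v' ∧ |t.num| ≤ B ∧ Bad t) → (T.card : ℝ) ≤ C * Real.log B ^ s) →
      (((Icc 1 N).filter (fun m => Bad (((h.eval (f m : ℤ) : ℤ) : ℚ) / v))).card : ℝ) ≤
        N / Real.log N ^ U := by
  obtain ⟨N₁, hN₁⟩ := hf (1 / 2) (1 / 2) (by norm_num) (by norm_num) (by norm_num) 1 U
  obtain ⟨D₂, hD₂⟩ : ∃ D₂ : ℕ, D₂ = (a + 1) + (a + 2 * a) := ⟨_, rfl⟩
  obtain ⟨R, hR⟩ : ∃ R : ℝ, R = Real.log ((a + 1) * (C + 1) * (D₂ : ℝ) ^ s) := ⟨_, rfl⟩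
  have hD₂0 : (0 : ℝ) < D₂ := by
    rw [hD₂]
    positivity
  have hlog : Tendsto (fun N : ℕ => Real.log (Real.log (N : ℝ))) atTop atTop :=
    Real.tendsto_log_atTop.comp (Real.tendsto_log_atTop.comp tendsto_natCast_atTop_atTop)
  obtain ⟨N₂, hN₂⟩ := eventually_atTop.1 (hlog.eventually (eventually_y2 (show (0 : ℝ) < 1 / 4 by norm_num) a s R))
  refine ⟨max (max N₁ N₂) 3, fun N hN v hv hva h hd1 hd hcoef Bad hBad => ?_⟩
  have hN3 : 3 ≤ N := le_trans (le_max_right _ _) hN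
  have hNN₁ : N₁ ≤ N := le_trans (le_trans (le_max_left _ _) (le_max_left _ _)) hN
  have hNN₂ : N₂ ≤ N := le_trans (le_trans (le_max_right _ _) (le_max_left _ _)) hN
  have hN0 : (0 : ℝ) < N := by
    have : 0 < N := by omega
    exact_mod_cast this
  have hN1 : (1 : ℝ) ≤ N := by
    have : 1 ≤ N := by omega
    exact_mod_cast this
  have hav := hN₁ N hNN₁ {w : ℕ | Bad (((h.eval (w : ℤ) : ℤ) : ℚ) / v)}
  simp only [Set.mem_ofPred_eq] at hav
  apply hav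
  obtain ⟨y1, y2, y3, y4⟩ := hN₂ N hNN₂
  obtain ⟨L, hL⟩ : ∃ L : ℝ, L = Real.log N := ⟨_, rfl⟩
  rw [← hL] at y1 y2 y3 y4
  obtain ⟨y, hy⟩ : ∃ y : ℝ, y = Real.log L := ⟨_, rfl⟩
  rw [← hy] at y1 y2 y3 y4
  have hy0 : 0 < y := by linarith
  have hL0 : 0 < L := by
    by_contra hneg
    have hL1 : L = 0 := by
      have : 0 ≤ L := by
        rw [hL]
        exact Real.log_natCast_nonneg N
      linarith
    rw [hL1, Real.log_zero] at hy
    linarith
  have hLy : L = Real.exp y := by rw [hy, Real.exp_log hL0]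
  obtain ⟨E, hE⟩ : ∃ E : ℝ, E = L * Real.log y / y := ⟨_, rfl⟩
  rw [← hLy, ← hE] at y3 y4
  have hEL : E ≤ L := by
    rw [hE, div_le_iff₀ hy0]
    have : Real.log y ≤ y := (Real.log_le_sub_one_of_pos hy0).trans (by linarith)
    nlinarith
  have hdiv := div_card hL hLy y1 hv hva
  rw [← hLy] at hdiv
  obtain ⟨M, hM⟩ : ∃ M : ℕ, M = ⌊(N : ℝ) ^ ((1 : ℝ) + 1 / 2)⌋₊ := ⟨_, rfl⟩
  rw [← hM]
  obtain ⟨B, hB⟩ : ∃ B : ℕ, B = (a + 1) * N ^ (a + 2 * a) := ⟨_, rfl⟩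
  have hNpos : 0 < N := by omega
  have ha1 : 1 ≤ a := hd1.trans hd
  have hB2 : 2 ≤ B := by
    rw [hB]
    calc 2 ≤ N := by omega
      _ = N ^ 1 := (pow_one N).symm
      _ ≤ N ^ (a + 2 * a) := Nat.pow_le_pow_right hNpos (by omega)
      _ ≤ (a + 1) * N ^ (a + 2 * a) := Nat.le_mul_of_pos_left _ (by omega)
  have hvB : v ≤ B := by
    rw [hB]
    calc v ≤ N ^ a := hva
      _ ≤ N ^ (a + 2 * a) := Nat.pow_le_pow_right hNpos (by omega)
      _ ≤ (a + 1) * N ^ (a + 2 * a) := Nat.le_mul_of_pos_left _ (by omega)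
  have hM2 : M ≤ N ^ 2 := by
    have h1 : (M : ℝ) ≤ (N : ℝ) ^ ((1 : ℝ) + 1 / 2) := by
      rw [hM]
      exact Nat.floor_le (by positivity)
    have h2 : (N : ℝ) ^ ((1 : ℝ) + 1 / 2) ≤ (N : ℝ) ^ (2 : ℝ) :=
      Real.rpow_le_rpow_of_exponent_le hN1 (by norm_num)
    have h3 : (N : ℝ) ^ (2 : ℝ) = ((N ^ 2 : ℕ) : ℝ) := by
      rw [Nat.cast_pow, ← Real.rpow_natCast]
      norm_num
    exact_mod_cast (h1.trans h2).trans h3.le
  have hcoef' : ∀ i, |h.coeff i| ≤ ((N ^ a : ℕ) : ℤ) := by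
    intro i
    have := hcoef i
    exact_mod_cast this
  have hlogB : Real.log B ≤ D₂ * L := by
    rw [hB]
    push_cast
    rw [Real.log_mul (by positivity) (by positivity), Real.log_pow, ← hL, hD₂]
    push_cast
    have e2 : Real.log ((a : ℝ) + 1) ≤ (a : ℝ) + 1 :=
      (Real.log_le_sub_one_of_pos (by positivity)).trans (by linarith)
    have hL1 : 1 ≤ L := by
      rw [hLy]
      exact Real.one_le_exp hy0.le
    have ha0 : (0 : ℝ) ≤ a := Nat.cast_nonneg a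
    nlinarith
  have hlogB0 : 0 ≤ Real.log B := Real.log_natCast_nonneg B
  have hK : (C : ℝ) * Real.log B ^ s ≤ C * (D₂ * L) ^ s := by gcongr
  have hW : ((((Icc 1 M).filter (fun w : ℕ => Bad (((h.eval (w : ℤ) : ℤ) : ℚ) / v))).card : ℕ) : ℝ) ≤
      (v.divisors.card : ℝ) * (a * (C * (D₂ * L) ^ s)) := by
    apply classes hv hvB (Bad := Bad) (τ := fun w : ℕ => h.eval (w : ℤ)) (fib hd1 hd _)
    · intro w hw
      rw [mem_filter, mem_Icc] at hw
      refine (eval_le hd hcoef' hw.1.1).trans ?_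
      have h3 : (a + 1) * N ^ a * w ^ a ≤ B := by
        calc (a + 1) * N ^ a * w ^ a ≤ (a + 1) * N ^ a * (N ^ 2) ^ a :=
              Nat.mul_le_mul_left _ (Nat.pow_le_pow_left (hw.1.2.trans hM2) _)
          _ = B := by
              rw [hB, ← pow_mul, pow_add]
              ring
      exact_mod_cast h3
    · intro w hw
      rw [mem_filter] at hw
      exact hw.2
    · intro v' hv' T hT
      exact (hBad B v' hB2 hv' T hT).trans hK
  have h1 : (v.divisors.card : ℝ) ≤ Real.exp (1 / 4 * E) := hdiv.trans (Real.exp_le_exp.2 y3)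
  have h2 : a * ((C : ℝ) * (D₂ * L) ^ s) ≤ Real.exp (1 / 4 * E) := by
    refine le_trans ?_ (Real.exp_le_exp.2 y4)
    rw [Real.exp_add, hR, Real.exp_log (by positivity), Real.exp_nat_mul, ← hLy, mul_pow]
    have e0 : (0 : ℝ) ≤ (D₂ : ℝ) ^ s * L ^ s := by positivity
    have e1 : (a : ℝ) * C ≤ (a + 1) * (C + 1) := by
      have : (0 : ℝ) ≤ a := Nat.cast_nonneg a
      have : (0 : ℝ) ≤ C := Nat.cast_nonneg C
      nlinarith
    nlinarith
  calc _ ≤ (v.divisors.card : ℝ) * (a * (C * (D₂ * L) ^ s)) := hW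
    _ ≤ Real.exp (1 / 4 * E) * Real.exp (1 / 4 * E) := by gcongr
    _ = Real.exp (1 / 2 * E) := by
        rw [← Real.exp_add]
        congr 1
        ring
    _ ≤ Real.exp (1 / 2 * L) := by
        apply Real.exp_le_exp.2
        linarith
    _ = 1 * (N : ℝ) ^ (1 / 2 : ℝ) := by
        rw [one_mul, Real.rpow_def_of_pos hN0, ← hL]
        congr 1
        ring

end Pool.Agent.D0H54.PV
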